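import Pool.Agent.H32.S36.Targets

set_option autoImplicit false

open PowerSeries

namespace Pool.Agent.H32.S36

noncomputable section

/-! ### Euler derivations -/

def a1Eul {R : Type} [CommRing R] (f : PowerSeries R) : PowerSeries R :=
  PowerSeries.mk fun n => (n : R) * PowerSeries.coeff n f

theorem a1Eul_coeff {R : Type} [CommRing R] (f : PowerSeries R) (n : ℕ) :
    PowerSeries.coeff n (a1Eul f) = (n : R) * PowerSeries.coeff n f := by
  simp [a1Eul]

theorem a1Eul_add {R : Type} [CommRing R] (f g : PowerSeries R) :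
    a1Eul (f + g) = a1Eul f + a1Eul g := by
  ext n; simp [a1Eul_coeff, mul_add]

theorem a1Eul_mul {R : Type} [CommRing R] (f g : PowerSeries R) :
    a1Eul (f * g) = f * a1Eul g + g * a1Eul f := by
  ext n
  rw [a1Eul_coeff, map_add, PowerSeries.coeff_mul, PowerSeries.coeff_mul, mul_comm g,
    PowerSeries.coeff_mul, Finset.mul_sum, ← Finset.sum_add_distrib]
  refine Finset.sum_congr rfl (fun ij hij => ?_)
  rw [a1Eul_coeff, a1Eul_coeff, ← Finset.HasAntidiagonal.mem_antidiagonal.1 hij]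
  push_cast
  ring

theorem a1Eul_C {R : Type} [CommRing R] (c : R) : a1Eul (PowerSeries.C c) = 0 := by
  ext n
  rw [a1Eul_coeff, PowerSeries.coeff_C]
  split_ifs with h
  · subst h; simp
  · simp

theorem a1Eul_X {R : Type} [CommRing R] : a1Eul (PowerSeries.X : PowerSeries R) = PowerSeries.X := by
  ext n
  rw [a1Eul_coeff, PowerSeries.coeff_X]
  split_ifs with h
  · subst h; simp
  · simp

/-- the derivation `t ∂_t` -/
def a1T : Derivation ℤ S2 S2 :=
  Derivation.mk' (AddMonoidHom.mk' a1Eul a1Eul_add : S2 →+ S2).toIntLinearMap (fun f g => by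
    simp only [AddMonoidHom.coe_toIntLinearMap, AddMonoidHom.mk'_apply, smul_eq_mul]
    exact a1Eul_mul f g)

def a1EulU (F : S2) : S2 := PowerSeries.mk fun a => a1Eul (PowerSeries.coeff a F)

theorem a1EulU_coeff (F : S2) (a : ℕ) :
    PowerSeries.coeff a (a1EulU F) = a1Eul (PowerSeries.coeff a F) := by
  simp [a1EulU]

theorem a1EulU_add (f g : S2) : a1EulU (f + g) = a1EulU f + a1EulU g := by
  ext n; simp [a1EulU_coeff, a1Eul_add]

theorem a1Eul_sum {R ι : Type} [CommRing R] (s : Finset ι) (f : ι → PowerSeries R) :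
    a1Eul (∑ i ∈ s, f i) = ∑ i ∈ s, a1Eul (f i) := by
  classical
  induction s using Finset.induction_on with
  | empty =>
    rw [Finset.sum_empty, Finset.sum_empty]
    ext n; rw [a1Eul_coeff]; simp
  | insert a s ha ih => rw [Finset.sum_insert ha, Finset.sum_insert ha, a1Eul_add, ih]

theorem a1EulU_mul (f g : S2) : a1EulU (f * g) = f * a1EulU g + g * a1EulU f := by
  refine PowerSeries.ext (fun n => ?_)
  rw [a1EulU_coeff, map_add, PowerSeries.coeff_mul, PowerSeries.coeff_mul, mul_comm g,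
    PowerSeries.coeff_mul, a1Eul_sum, ← Finset.sum_add_distrib]
  refine Finset.sum_congr rfl (fun ij _ => ?_)
  rw [a1EulU_coeff, a1EulU_coeff, a1Eul_mul]
  ring

/-- the derivation `u ∂_u` -/
def a1U : Derivation ℤ S2 S2 :=
  Derivation.mk' (AddMonoidHom.mk' a1EulU a1EulU_add : S2 →+ S2).toIntLinearMap (fun f g => by
    simp only [AddMonoidHom.coe_toIntLinearMap, AddMonoidHom.mk'_apply, smul_eq_mul]
    exact a1EulU_mul f g)

theorem a1T_coeff (F : S2) (n : ℕ) :
    PowerSeries.coeff n (a1T F) = (n : PowerSeries ℚ) * PowerSeries.coeff n F :=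
  a1Eul_coeff F n

theorem a1U_coeff (F : S2) (n : ℕ) :
    PowerSeries.coeff n (a1U F) = a1Eul (PowerSeries.coeff n F) :=
  a1EulU_coeff F n

theorem a1T_tt : a1T tt = tt := by
  show a1Eul (R := PowerSeries ℚ) PowerSeries.X = PowerSeries.X
  exact a1Eul_X
theorem a1T_uu : a1T uu = 0 := by
  show a1Eul (R := PowerSeries ℚ) (PowerSeries.C _) = 0
  exact a1Eul_C _
theorem a1T_hf : a1T hf2 = 0 := by
  show a1Eul (R := PowerSeries ℚ) (PowerSeries.C _) = 0
  exact a1Eul_C _

theorem a1U_C (f : PowerSeries ℚ) : a1U (PowerSeries.C f) = PowerSeries.C (a1Eul f) := by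
  refine PowerSeries.ext (fun n => ?_)
  rw [a1U_coeff, PowerSeries.coeff_C, PowerSeries.coeff_C]
  split_ifs with h
  · rfl
  · ext n; rw [a1Eul_coeff]; simp

theorem a1U_uu : a1U uu = uu := by
  unfold uu; rw [a1U_C, a1Eul_X]
theorem a1U_hf : a1U hf2 = 0 := by
  unfold hf2; rw [a1U_C, a1Eul_C, map_zero]
theorem a1U_tt : a1U tt = 0 := by
  refine PowerSeries.ext (fun n => ?_)
  unfold tt
  rw [a1U_coeff, PowerSeries.coeff_X]
  split_ifs with h
  · have := a1Eul_C (R := ℚ) 1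
    simpa using this
  · ext n; rw [a1Eul_coeff]; simp

/-! ### the diagonal coefficient -/

def a1c (n : ℕ) (F : S2) : ℚ := PowerSeries.coeff n (PowerSeries.coeff n F)

theorem a1c_add (n : ℕ) (F G : S2) : a1c n (F + G) = a1c n F + a1c n G := by
  simp [a1c]
theorem a1c_sub (n : ℕ) (F G : S2) : a1c n (F - G) = a1c n F - a1c n G := by
  simp [a1c]

theorem a1c_shift (n : ℕ) (F : S2) : a1c (n + 1) (tt * uu * F) = a1c n F := by
  unfold a1c tt uu
  rw [mul_assoc, PowerSeries.coeff_succ_X_mul, PowerSeries.coeff_C_mul, PowerSeries.coeff_succ_X_mul]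

theorem a1c_natCast (n k : ℕ) (F : S2) : a1c n ((k : S2) * F) = (k : ℚ) * a1c n F := by
  unfold a1c
  have : (k : S2) = PowerSeries.C (PowerSeries.C (k : ℚ)) := by simp
  rw [this, PowerSeries.coeff_C_mul, PowerSeries.coeff_C_mul]

theorem a1c_T (n : ℕ) (F : S2) : a1c n (a1T F) = (n : ℚ) * a1c n F := by
  unfold a1c
  rw [a1T_coeff]
  have : (n : PowerSeries ℚ) = PowerSeries.C (n : ℚ) := by simp
  rw [this, PowerSeries.coeff_C_mul]

theorem a1c_U (n : ℕ) (F : S2) : a1c n (a1U F) = (n : ℚ) * a1c n F := by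
  unfold a1c
  rw [a1U_coeff, a1Eul_coeff]


/-! ### values of the derivations -/

theorem a1_hf : 2 * hf2 = 1 := by
  unfold hf2
  have : (2 : S2) = PowerSeries.C (PowerSeries.C (2 : ℚ)) := by
    rw [map_ofNat PowerSeries.C 2, map_ofNat PowerSeries.C 2]
  rw [this, ← map_mul, ← map_mul]
  norm_num

theorem a1T_Lh (n : ℕ) : a1T (Lh n) = n * Lh n - Mh n := by
  unfold Lh Mh
  rw [map_sum, Finset.mul_sum, ← Finset.sum_sub_distrib]
  refine Finset.sum_congr rfl (fun i hi => ?_)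
  have hi' : i ≤ n := Nat.lt_succ_iff.1 (Finset.mem_range.1 hi)
  have h36 : a1T (36 : S2) = 0 := by exact_mod_cast a1T.map_natCast 36
  have e : a1T (tt ^ (n - i)) = ((n : S2) - i) * tt ^ (n - i) := by
    rw [Derivation.leibniz_pow, a1T_tt]
    rcases Nat.eq_zero_or_pos (n - i) with h | h
    · have : n = i := by omega
      subst this; simp
    · simp only [smul_eq_mul, nsmul_eq_mul]
      rw [Nat.cast_sub hi', ← pow_succ, Nat.sub_add_cancel h]
  rw [Derivation.leibniz, e]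
  have e2 : a1T (((n.choose i : ℕ) : S2) ^ 2 * 36 ^ i * uu ^ i) = 0 := by
    rw [Derivation.leibniz, Derivation.leibniz, Derivation.leibniz_pow, Derivation.leibniz_pow,
      Derivation.leibniz_pow, a1T_uu, h36, Derivation.map_natCast]
    simp
  rw [e2]
  simp only [smul_eq_mul]
  ring

theorem a1U_Lh (n : ℕ) : a1U (Lh n) = Mh n := by
  unfold Lh Mh
  rw [map_sum]
  refine Finset.sum_congr rfl (fun i _ => ?_)
  have h36 : a1U (36 : S2) = 0 := by exact_mod_cast a1U.map_natCast 36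
  have e : a1U (uu ^ i) = (i : S2) * uu ^ i := by
    rw [Derivation.leibniz_pow, a1U_uu]
    cases i with
    | zero => simp
    | succ k => simp only [smul_eq_mul, nsmul_eq_mul, Nat.add_sub_cancel]; ring
  rw [Derivation.leibniz, Derivation.leibniz, e, Derivation.leibniz, Derivation.leibniz_pow,
    Derivation.leibniz_pow, Derivation.leibniz_pow, h36, Derivation.map_natCast, a1U_tt]
  simp only [smul_eq_mul, smul_zero, mul_zero, zero_add, add_zero]
  ring

theorem a1T_Qn (a : S2) (ha : (1 + tt) * a = 1) (n : ℕ) :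
    a1T ((1 + tt) ^ n * (1 + uu) ^ n) = n * tt * a * ((1 + tt) ^ n * (1 + uu) ^ n) := by
  rw [Derivation.leibniz, Derivation.leibniz_pow, Derivation.leibniz_pow, map_add, map_add,
    Derivation.map_one_eq_zero, a1T_tt, a1T_uu]
  simp only [smul_eq_mul, nsmul_eq_mul, zero_add, smul_zero, mul_zero]
  cases n with
  | zero => simp
  | succ k =>
    simp only [Nat.add_sub_cancel]
    have e : (1 + tt) ^ (k + 1) * a = (1 + tt) ^ k := by
      rw [pow_succ, mul_assoc, ha, mul_one]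
    linear_combination -((k + 1 : ℕ) : S2) * tt * (1 + uu) ^ (k + 1) * e

theorem a1U_Qn (b : S2) (hb : (1 + uu) * b = 1) (n : ℕ) :
    a1U ((1 + tt) ^ n * (1 + uu) ^ n) = n * uu * b * ((1 + tt) ^ n * (1 + uu) ^ n) := by
  rw [Derivation.leibniz, Derivation.leibniz_pow, Derivation.leibniz_pow, map_add, map_add,
    Derivation.map_one_eq_zero, a1U_tt, a1U_uu]
  simp only [smul_eq_mul, nsmul_eq_mul, zero_add, smul_zero, mul_zero, add_zero]
  cases n with
  | zero => simp
  | succ k =>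
    simp only [Nat.add_sub_cancel]
    have e : (1 + uu) ^ (k + 1) * b = (1 + uu) ^ k := by
      rw [pow_succ, mul_assoc, hb, mul_one]
    linear_combination -((k + 1 : ℕ) : S2) * uu * (1 + tt) ^ (k + 1) * e

def a1RT : S2 := 15 * tt + 6 * uu * tt + 2 * (5 * tt ^ 2 + 15 * uu * tt ^ 2 + 12 * uu ^ 2 * tt ^ 2)
def a1RU : S2 := 6 * uu * tt + 15 * uu * tt ^ 2 + 24 * uu ^ 2 * tt ^ 2

theorem a1T_5 : a1T (5 : S2) = 0 := by exact_mod_cast a1T.map_natCast 5
theorem a1U_5 : a1U (5 : S2) = 0 := by exact_mod_cast a1U.map_natCast 5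
theorem a1T_6 : a1T (6 : S2) = 0 := by exact_mod_cast a1T.map_natCast 6
theorem a1U_6 : a1U (6 : S2) = 0 := by exact_mod_cast a1U.map_natCast 6
theorem a1T_11 : a1T (11 : S2) = 0 := by exact_mod_cast a1T.map_natCast 11
theorem a1U_11 : a1U (11 : S2) = 0 := by exact_mod_cast a1U.map_natCast 11
theorem a1T_12 : a1T (12 : S2) = 0 := by exact_mod_cast a1T.map_natCast 12
theorem a1U_12 : a1U (12 : S2) = 0 := by exact_mod_cast a1U.map_natCast 12
theorem a1T_15 : a1T (15 : S2) = 0 := by exact_mod_cast a1T.map_natCast 15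
theorem a1U_15 : a1U (15 : S2) = 0 := by exact_mod_cast a1U.map_natCast 15
theorem a1T_18 : a1T (18 : S2) = 0 := by exact_mod_cast a1T.map_natCast 18
theorem a1U_18 : a1U (18 : S2) = 0 := by exact_mod_cast a1U.map_natCast 18
theorem a1T_54 : a1T (54 : S2) = 0 := by exact_mod_cast a1T.map_natCast 54
theorem a1U_54 : a1U (54 : S2) = 0 := by exact_mod_cast a1U.map_natCast 54
theorem a1T_108 : a1T (108 : S2) = 0 := by exact_mod_cast a1T.map_natCast 108
theorem a1U_108 : a1U (108 : S2) = 0 := by exact_mod_cast a1U.map_natCast 108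
theorem a1T_162 : a1T (162 : S2) = 0 := by exact_mod_cast a1T.map_natCast 162
theorem a1U_162 : a1U (162 : S2) = 0 := by exact_mod_cast a1U.map_natCast 162

theorem a1T_Rh : a1T Rh = a1RT := by
  unfold Rh a1RT
  simp only [map_add, Derivation.leibniz, Derivation.leibniz_pow, a1T_tt, a1T_uu, a1T_5, a1T_6, a1T_11, a1T_12, a1T_15, a1T_18, a1T_54, a1T_108, a1T_162,
    smul_eq_mul, nsmul_eq_mul, mul_zero, zero_add, add_zero, smul_zero]
  push_cast
  ring

theorem a1U_Rh : a1U Rh = a1RU := by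
  unfold Rh a1RU
  simp only [map_add, Derivation.leibniz, Derivation.leibniz_pow, a1U_tt, a1U_uu, a1U_5, a1U_6, a1U_11, a1U_12, a1U_15, a1U_18, a1U_54, a1U_108, a1U_162,
    smul_eq_mul, nsmul_eq_mul, mul_zero, zero_add, add_zero, smul_zero]
  push_cast
  ring

theorem a1T_r (r : S2) (hr : Rh * r = 1) : a1T r = -(r ^ 2 * a1RT) := by
  have h := congrArg a1T hr
  rw [Derivation.leibniz, Derivation.map_one_eq_zero, a1T_Rh] at h
  simp only [smul_eq_mul] at h
  linear_combination r * h - a1T r * hr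

theorem a1U_r (r : S2) (hr : Rh * r = 1) : a1U r = -(r ^ 2 * a1RU) := by
  have h := congrArg a1U hr
  rw [Derivation.leibniz, Derivation.map_one_eq_zero, a1U_Rh] at h
  simp only [smul_eq_mul] at h
  linear_combination r * h - a1U r * hr

def a1g : S2 :=
  -hf2 * (1 + uu) * tt ^ 3 + 11 * hf2 * tt ^ 2 + 54 * uu * (1 + uu) * tt ^ 2 + 18 * tt
    + 162 * uu * (1 + uu) * tt + 12 + 108 * uu * (1 + uu)
def a1gT : S2 :=
  -3 * hf2 * (1 + uu) * tt ^ 3 + 22 * hf2 * tt ^ 2 + 108 * uu * (1 + uu) * tt ^ 2 + 18 * tt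
    + 162 * uu * (1 + uu) * tt
def a1k : S2 :=
  -hf2 * (tt ^ 2 + tt) + uu * (11 * hf2 * tt ^ 2 + 54 * (tt + 1))
    + uu * (18 * uu * tt ^ 2 + 162 * uu * (tt + 1))
    + uu * (12 * uu ^ 2 * tt ^ 2 + 108 * uu ^ 2 * (tt + 1))
def a1kU : S2 :=
  uu * (11 * hf2 * tt ^ 2 + 54 * (tt + 1)) + 2 * uu * (18 * uu * tt ^ 2 + 162 * uu * (tt + 1))
    + 3 * uu * (12 * uu ^ 2 * tt ^ 2 + 108 * uu ^ 2 * (tt + 1))

theorem a1T_g : a1T a1g = a1gT := by
  unfold a1g a1gT
  simp only [map_add, map_neg, Derivation.leibniz, Derivation.leibniz_pow, a1T_tt, a1T_uu, a1T_5, a1T_6, a1T_11, a1T_12, a1T_15, a1T_18, a1T_54, a1T_108, a1T_162,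
    a1T_hf, Derivation.map_one_eq_zero,
    smul_eq_mul, nsmul_eq_mul, mul_zero, zero_add, add_zero, smul_zero, neg_zero]
  push_cast
  ring

theorem a1U_k : a1U a1k = a1kU := by
  unfold a1k a1kU
  simp only [map_add, map_neg, Derivation.leibniz, Derivation.leibniz_pow, a1U_tt, a1U_uu, a1U_5, a1U_6, a1U_11, a1U_12, a1U_15, a1U_18, a1U_54, a1U_108, a1U_162,
    a1U_hf, Derivation.map_one_eq_zero,
    smul_eq_mul, nsmul_eq_mul, mul_zero, zero_add, add_zero, smul_zero, neg_zero]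
  push_cast
  ring


/-! ### the identity -/

theorem a1_I (h1 : T_LMR) (h2 : T_CER) (r a b : S2) (hr : Rh * r = 1) (ha : (1 + tt) * a = 1)
    (hb : (1 + uu) * b = 1) (n : ℕ) :
    tt * uu * (3 * Lh n + 4 * Mh n) =
      (1 + tt) * (1 + uu) * (alH r a b * (((n : S2) + 1) * Lh (n + 1)) + 2 * beH r * Mh (n + 1))
      - tt * uu * (n * alH r a b * Lh n + 2 * beH r * Mh n)
      + (-(n * tt ^ 2 * uu * a) * (a1g * r) * Lh n + tt * uu * (a1g * r) * Mh n
          - tt * uu * (a1gT * r - a1g * a1RT * r ^ 2) * Lh n)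
      + (tt * (n * uu * b * (a1k * r) + (a1kU * r - a1k * a1RU * r ^ 2)
            - ((n : S2) + 1) * (a1k * r)) * Lh n + tt * (a1k * r) * Mh n) := by
  let K := FractionRing S2
  let φ : S2 →+* K := algebraMap S2 K
  have hinj : Function.Injective φ := IsFractionRing.injective S2 K
  apply hinj
  have hchar : CharZero K := by
    have : CharZero S2 := by
      refine ⟨fun a b h => ?_⟩
      have h2 := congrArg (fun F : S2 => PowerSeries.coeff 0 (PowerSeries.coeff 0 F)) h
      have e : ∀ k : ℕ, PowerSeries.coeff 0 (PowerSeries.coeff 0 (k : S2)) = (k : ℚ) := by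
        intro k
        have : (k : S2) = PowerSeries.C (PowerSeries.C (k : ℚ)) := by simp
        rw [this]; simp
      simp only [e] at h2
      exact_mod_cast h2
    exact ⟨fun a b h => by
      have h3 : φ (a : S2) = φ (b : S2) := by simpa using h
      exact_mod_cast hinj h3⟩
  have hhf : φ hf2 = 1 / 2 := by
    have h := congrArg φ a1_hf
    rw [map_mul, map_one, map_ofNat] at h
    rw [one_div]
    exact eq_inv_of_mul_eq_one_right h
  have hRK : RK (φ tt) (φ uu) = φ Rh := by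
    unfold RK Rh
    simp only [map_add, map_mul, map_pow, map_ofNat]
  have hR0 : RK (φ tt) (φ uu) * φ r = 1 := by
    rw [hRK, ← map_mul, hr, map_one]
  have hR1 : RK (φ tt) (φ uu) ≠ 0 := left_ne_zero_of_mul_eq_one hR0
  have hφr : φ r = (RK (φ tt) (φ uu))⁻¹ := by
    exact eq_inv_of_mul_eq_one_right hR0
  have hA0 : (1 + φ tt) * φ a = 1 := by
    have h := congrArg φ ha
    rwa [map_mul, map_add, map_one] at h
  have hA1 : 1 + φ tt ≠ 0 := left_ne_zero_of_mul_eq_one hA0
  have hφa : φ a = (1 + φ tt)⁻¹ := by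
    exact eq_inv_of_mul_eq_one_right hA0
  have hB0 : (1 + φ uu) * φ b = 1 := by
    have h := congrArg φ hb
    rwa [map_mul, map_add, map_one] at h
  have hB1 : 1 + φ uu ≠ 0 := left_ne_zero_of_mul_eq_one hB0
  have hφb : φ b = (1 + φ uu)⁻¹ := by
    exact eq_inv_of_mul_eq_one_right hB0
  have hg : φ a1g = g1K (φ tt) (φ uu) := by
    unfold a1g g1K
    simp only [map_add, map_mul, map_pow, map_ofNat, map_neg, map_one, hhf]
    ring
  have hgT : φ a1gT = g1tK (φ tt) (φ uu) := by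
    unfold a1gT g1tK
    simp only [map_add, map_mul, map_pow, map_ofNat, map_neg, map_one, hhf]
    ring
  have hk : φ a1k = k2K (φ tt) (φ uu) := by
    unfold a1k k2K
    simp only [map_add, map_mul, map_pow, map_ofNat, map_neg, map_one, hhf]
    ring
  have hkU : φ a1kU = k2uK (φ tt) (φ uu) := by
    unfold a1kU k2uK
    simp only [map_add, map_mul, map_pow, map_ofNat, map_neg, map_one, hhf]
    ring
  have hRT : φ a1RT = RtK (φ tt) (φ uu) := by
    unfold a1RT RtK
    simp only [map_add, map_mul, map_pow, map_ofNat]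
  have hRU : φ a1RU = RuK (φ tt) (φ uu) := by
    unfold a1RU RuK
    simp only [map_add, map_mul, map_pow, map_ofNat]
  have hal : φ (alH r a b) = alK (φ tt) (φ uu) := by
    unfold alH alK
    simp only [map_add, map_mul, map_pow, map_ofNat, map_sub, hhf, hφr, hφa, hφb]
    ring
  have hbe : φ (beH r) = beK (φ tt) (φ uu) := by
    unfold beH beK
    simp only [map_add, map_mul, map_pow, map_ofNat, map_neg, map_one, hhf, hφr]
    ring
  obtain ⟨q1, q2⟩ := h1 n
  have q1' := congrArg φ q1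
  have q2' := congrArg φ q2
  simp only [map_add, map_mul, map_sub, map_one, map_ofNat, map_natCast] at q1' q2'
  have E := h2 K (φ tt) (φ uu) (n : K) (φ (Lh n)) (φ (Mh n)) (φ (Lh (n + 1))) (φ (Mh (n + 1)))
    hR1 hA1 hB1 q1' q2'
  simp only [map_add, map_mul, map_sub, map_pow, map_neg, map_one, map_ofNat, map_natCast, hg, hgT,
    hk, hkU, hRT, hRU, hal, hbe, hφr, hφa, hφb]
  linear_combination E

/-- the telescoping identity -/
theorem a1_tel (h1 : T_LMR) (h2 : T_CER) (r a b : S2) (hr : Rh * r = 1) (ha : (1 + tt) * a = 1)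
    (hb : (1 + uu) * b = 1) (n : ℕ) :
    tt * uu * ((1 + tt) ^ n * (1 + uu) ^ n * (3 * Lh n + 4 * Mh n)) =
      PhH r a b (n + 1) - tt * uu * PhH r a b n
      + (((n + 1 : ℕ) : S2) * (tt * uu * ((1 + tt) ^ n * (1 + uu) ^ n) * (a1g * r) * Lh n)
          - a1T (tt * uu * ((1 + tt) ^ n * (1 + uu) ^ n) * (a1g * r) * Lh n))
      + (a1U (tt * ((1 + tt) ^ n * (1 + uu) ^ n) * (a1k * r) * Lh n)
          - ((n + 1 : ℕ) : S2) * (tt * ((1 + tt) ^ n * (1 + uu) ^ n) * (a1k * r) * Lh n)) := by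
  have hI := a1_I h1 h2 r a b hr ha hb n
  have d1 : a1T (tt * uu * ((1 + tt) ^ n * (1 + uu) ^ n) * (a1g * r) * Lh n) =
      ((1 + tt) ^ n * (1 + uu) ^ n) * (tt * uu * (a1g * r) * Lh n
        + n * tt * a * (tt * uu * (a1g * r)) * Lh n
        + tt * uu * (a1gT * r - a1g * (r ^ 2 * a1RT)) * Lh n
        + tt * uu * (a1g * r) * (n * Lh n - Mh n)) := by
    simp only [Derivation.leibniz a1T, smul_eq_mul]
    have e := a1T_Qn a ha n
    rw [Derivation.leibniz] at e
    simp only [smul_eq_mul] at e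
    rw [a1T_tt, a1T_uu, a1T_g, a1T_r r hr, a1T_Lh]
    linear_combination (tt * uu * (a1g * r) * Lh n) * e
  have d2 : a1U (tt * ((1 + tt) ^ n * (1 + uu) ^ n) * (a1k * r) * Lh n) =
      ((1 + tt) ^ n * (1 + uu) ^ n) * (n * uu * b * (tt * (a1k * r)) * Lh n
        + tt * (a1kU * r - a1k * (r ^ 2 * a1RU)) * Lh n
        + tt * (a1k * r) * Mh n) := by
    simp only [Derivation.leibniz a1U, smul_eq_mul]
    have e := a1U_Qn b hb n
    rw [Derivation.leibniz] at e
    simp only [smul_eq_mul] at e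
    rw [a1U_tt, a1U_k, a1U_r r hr, a1U_Lh]
    linear_combination (tt * (a1k * r) * Lh n) * e
  rw [d1, d2]
  unfold PhH
  push_cast
  linear_combination ((1 + tt) ^ n * (1 + uu) ^ n) * hI

theorem a1c_Q (n : ℕ) : a1c n ((1 + tt) ^ n * (1 + uu) ^ n * (3 * Lh n + 4 * Mh n)) =
    ∑ i ∈ Finset.range (n + 1), (4 * (i : ℚ) + 3) * ((n.choose i : ℕ) : ℚ) ^ 4 * 36 ^ i := by
  have e : (1 + tt) ^ n * (1 + uu) ^ n * (3 * Lh n + 4 * Mh n) =
      ∑ i ∈ Finset.range (n + 1), (((4 * i + 3) * (n.choose i) ^ 2 * 36 ^ i : ℕ) : S2) *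
        ((1 + tt) ^ n * (1 + uu) ^ n * (uu ^ i * tt ^ (n - i))) := by
    unfold Lh Mh
    rw [Finset.mul_sum, Finset.mul_sum, ← Finset.sum_add_distrib, Finset.mul_sum]
    refine Finset.sum_congr rfl (fun i _ => ?_)
    push_cast
    ring
  rw [e]
  have hsum : ∀ (s : Finset ℕ) (f : ℕ → S2), a1c n (∑ i ∈ s, f i) = ∑ i ∈ s, a1c n (f i) := by
    intro s f
    simp [a1c]
  rw [hsum]
  refine Finset.sum_congr rfl (fun i hi => ?_)
  have hi' : i ≤ n := Nat.lt_succ_iff.1 (Finset.mem_range.1 hi)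
  rw [a1c_natCast]
  have e2 : a1c n ((1 + tt) ^ n * (1 + uu) ^ n * (uu ^ i * tt ^ (n - i))) =
      ((n.choose i : ℕ) : ℚ) ^ 2 := by
    have e3 : (1 + tt) ^ n * (1 + uu) ^ n * (uu ^ i * tt ^ (n - i)) =
        PowerSeries.C ((1 + PowerSeries.X) ^ n * PowerSeries.X ^ i) *
          (tt ^ (n - i) * (1 + tt) ^ n) := by
      unfold uu
      rw [map_mul, map_pow, map_pow, map_add, map_one]
      ring
    unfold a1c
    rw [e3, PowerSeries.coeff_C_mul]
    have e4 : PowerSeries.coeff n (tt ^ (n - i) * (1 + tt) ^ n) = ((n.choose i : ℕ) : PowerSeries ℚ) := by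
      unfold tt
      rw [PowerSeries.coeff_X_pow_mul', if_pos (Nat.sub_le _ _), Nat.sub_sub_self hi']
      have e5 : ((1 + PowerSeries.X : PowerSeries (PowerSeries ℚ))) ^ n
        = (((1 + Polynomial.X : Polynomial (PowerSeries ℚ)) ^ n : Polynomial (PowerSeries ℚ)) : PowerSeries (PowerSeries ℚ)) := by
        simp
      rw [e5, Polynomial.coeff_coe, Polynomial.coeff_one_add_X_pow]
    rw [e4]
    have e6 : ((n.choose i : ℕ) : PowerSeries ℚ) = PowerSeries.C ((n.choose i : ℕ) : ℚ) := by simp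
    rw [e6, mul_comm, PowerSeries.coeff_C_mul, mul_comm ((1 + PowerSeries.X) ^ n),
      PowerSeries.coeff_X_pow_mul', if_pos hi']
    have e5 : ((1 + PowerSeries.X : PowerSeries ℚ)) ^ n
        = (((1 + Polynomial.X : Polynomial ℚ) ^ n : Polynomial ℚ) : PowerSeries ℚ) := by
      simp
    rw [e5, Polynomial.coeff_coe, Polynomial.coeff_one_add_X_pow, Nat.choose_symm hi']
    ring
  rw [e2]
  push_cast
  ring

theorem m_A1F (h1 : T_LMR) (h2 : T_CER) : T_A1F := by
  intro r a b hr ha hb m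
  have hstep : ∀ n : ℕ, a1c (n + 1) (PhH r a b (n + 1)) = a1c n (PhH r a b n) +
      ∑ i ∈ Finset.range (n + 1), (4 * (i : ℚ) + 3) * ((n.choose i : ℕ) : ℚ) ^ 4 * 36 ^ i := by
    intro n
    have h := congrArg (a1c (n + 1)) (a1_tel h1 h2 r a b hr ha hb n)
    rw [a1c_shift, a1c_Q, a1c_add, a1c_add, a1c_sub, a1c_sub, a1c_sub, a1c_shift, a1c_natCast,
      a1c_natCast, a1c_T, a1c_U] at h
    linarith
  have h0 : a1c 0 (PhH r a b 0) = 0 := by
    unfold PhH Mh
    simp [a1c]
  have hall : ∀ m : ℕ, a1c m (PhH r a b m) = ∑ n ∈ Finset.range m,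
      ∑ i ∈ Finset.range (n + 1), (4 * (i : ℚ) + 3) * ((n.choose i : ℕ) : ℚ) ^ 4 * 36 ^ i := by
    intro m
    induction m with
    | zero => rw [h0]; simp
    | succ n ih =>
      rw [hstep, ih]
      exact (Finset.sum_range_succ _ n).symm
  show (AA m : ℚ) = a1c m (PhH r a b m)
  rw [hall]
  unfold AA cc
  push_cast
  have e : ∀ n ∈ Finset.range m,
      ∑ i ∈ Finset.range (n + 1), (4 * (i : ℚ) + 3) * ((n.choose i : ℕ) : ℚ) ^ 4 * 36 ^ i =
      ∑ i ∈ Finset.range m, (4 * (i : ℚ) + 3) * ((n.choose i : ℕ) : ℚ) ^ 4 * 36 ^ i := by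
    intro n hn
    refine Finset.sum_subset ?_ ?_
    · intro i hi
      rw [Finset.mem_range] at hi hn ⊢
      omega
    · intro i _ hi
      rw [Finset.mem_range] at hi
      rw [Nat.choose_eq_zero_of_lt (by omega)]
      simp
  rw [Finset.sum_congr rfl e, Finset.sum_comm]
  refine Finset.sum_congr rfl (fun i _ => ?_)
  rw [Finset.mul_sum, Finset.sum_mul]

end

end Pool.Agent.H32.S36
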