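import Pool.Agent.H32.S36.Targets

set_option autoImplicit false

namespace Pool.Agent.H32.S36

theorem m_CER : T_CER := by
  intro K _ _ t u n L M L1 M1 hR ht hu h1 h2
  rw [h1, h2]
  unfold alK beK
  have hR' := hR
  unfold RK at hR' 
  field_simp
  unfold RK RtK RuK g1K g1tK k2K k2uK
  ring

end Pool.Agent.H32.S36
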