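import Pool.Agent.H32.S36.Fin1

set_option autoImplicit false

open Polynomial

namespace Pool.Agent.H32.S36

theorem fin_of_dvd (p : ℕ) (hp : p.Prime) (hp2 : p ≠ 2) (hp5 : p ≠ 5) (e T c : ℤ)
    (he : e = 1 ∨ e = 2 ∨ e = 5 ∨ e = 10) (h : (p : ℤ) ^ 2 ∣ e * (T - c)) :
    (p : ℤ) ^ 2 ∣ T - c := by
  have hpp : Prime (p : ℤ) := Nat.prime_iff_prime_int.1 hp
  have hc : IsCoprime ((p : ℤ) ^ 2) e := by
    refine IsCoprime.pow_left (hpp.coprime_iff_not_dvd.2 ?_)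
    intro h1
    have h10 : (p : ℤ) ∣ 10 := by
      rcases he with h' | h' | h' | h' <;> rw [h'] at h1
      · exact dvd_trans h1 (by norm_num)
      · exact dvd_trans h1 (by norm_num)
      · exact dvd_trans h1 (by norm_num)
      · exact h1
    have h11 : p ∣ 10 := by exact_mod_cast h10
    have h12 : (10 : ℕ) = 2 * 5 := by norm_num
    rw [h12] at h11
    rcases (Nat.Prime.dvd_mul hp).1 h11 with h | h
    · exact hp2 ((Nat.prime_dvd_prime_iff_eq hp Nat.prime_two).1 h)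
    · exact hp5 ((Nat.prime_dvd_prime_iff_eq hp Nat.prime_five).1 h)
  exact hc.dvd_of_dvd_mul_left h

theorem fin_ne3 (p : ℕ) (h : jacobiSym (p : ℤ) 3 ≠ 0) : p ≠ 3 := by
  rintro rfl
  apply h
  rw [jacobiSym.eq_zero_iff]; decide

theorem fin_ne5 (p : ℕ) (h : jacobiSym (p : ℤ) 5 ≠ 0) : p ≠ 5 := by
  rintro rfl
  apply h
  rw [jacobiSym.eq_zero_iff]; decide

theorem part_a (h0 : T_SUM) (h1 : T_SPF) (h2 : T_INF) (S : ℕ → ℤ)
    (hS : ∀ n : ℕ, S n = ∑ i ∈ Finset.range (n + 1), (36 : ℤ) ^ i * ((n.choose i : ℕ) : ℤ) ^ 4)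
    (p : ℕ) (hp : p.Prime) (hp2 : p ≠ 2) :
    ((jacobiSym 2 p = 1 ∧ jacobiSym (p : ℤ) 3 = 1 ∧ jacobiSym (p : ℤ) 5 = 1 →
            ∀ a b : ℤ, (p : ℤ) = a ^ 2 + 30 * b ^ 2 →
              Int.ModEq ((p : ℤ) ^ 2) (∑ j ∈ Finset.range p, S j) (4 * a ^ 2 - 2 * (p : ℤ))) ∧
         (jacobiSym (p : ℤ) 3 = 1 ∧ jacobiSym 2 p = -1 ∧ jacobiSym (p : ℤ) 5 = -1 →
            ∀ a b : ℤ, (p : ℤ) = 3 * a ^ 2 + 10 * b ^ 2 →
              Int.ModEq ((p : ℤ) ^ 2) (∑ j ∈ Finset.range p, S j) (12 * a ^ 2 - 2 * (p : ℤ))) ∧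
         (jacobiSym 2 p = 1 ∧ jacobiSym (p : ℤ) 3 = -1 ∧ jacobiSym (p : ℤ) 5 = -1 →
            ∀ a b : ℤ, (p : ℤ) = 2 * a ^ 2 + 15 * b ^ 2 →
              Int.ModEq ((p : ℤ) ^ 2) (∑ j ∈ Finset.range p, S j) (8 * a ^ 2 - 2 * (p : ℤ))) ∧
         (jacobiSym (p : ℤ) 5 = 1 ∧ jacobiSym 2 p = -1 ∧ jacobiSym (p : ℤ) 3 = -1 →
            ∀ a b : ℤ, (p : ℤ) = 5 * a ^ 2 + 6 * b ^ 2 →
              Int.ModEq ((p : ℤ) ^ 2) (∑ j ∈ Finset.range p, S j) (2 * (p : ℤ) - 20 * a ^ 2)) ∧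
         (jacobiSym (-30) p = -1 →
              Int.ModEq ((p : ℤ) ^ 2) (∑ j ∈ Finset.range p, S j) 0)) := by
  rw [(h0 S hS p).1]
  refine ⟨?_, ?_, ?_, ?_, ?_⟩
  · rintro ⟨_, h3, h5⟩ a b hab
    have n3 := fin_ne3 p (by rw [h3]; norm_num)
    have n5 := fin_ne5 p (by rw [h5]; norm_num)
    have h := h1 p hp hp2 n3 n5 1 a b (Or.inl rfl) (by rw [hab]; ring) (one_dvd _)
    apply Int.ModEq.symm
    rw [Int.modEq_iff_dvd]
    have e : (TT p).eval 36 - (4 * a ^ 2 - 2 * (p : ℤ)) =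
        1 * (TT p).eval 36 - chi 1 * (2 * (a ^ 2 - 30 * b ^ 2)) := by
      have : chi 1 = 1 := by decide
      rw [this, hab]; ring
    rw [e]; exact h
  · rintro ⟨h3, _, h5⟩ a b hab
    have n3 := fin_ne3 p (by rw [h3]; norm_num)
    have n5 := fin_ne5 p (by rw [h5]; norm_num)
    have h := h1 p hp hp2 n3 n5 10 (10 * b) a (Or.inr (Or.inr (Or.inr rfl)))
      (by rw [hab]; ring) (dvd_mul_right _ _)
    apply Int.ModEq.symm
    rw [Int.modEq_iff_dvd]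
    refine fin_of_dvd p hp hp2 n5 10 _ _ (Or.inr (Or.inr (Or.inr rfl))) ?_
    have e : 10 * ((TT p).eval 36 - (12 * a ^ 2 - 2 * (p : ℤ))) =
        10 * (TT p).eval 36 - chi 10 * (2 * ((10 * b) ^ 2 - 30 * a ^ 2)) := by
      have : chi 10 = -1 := by decide
      rw [this, hab]; ring
    rw [e]; exact h
  · rintro ⟨_, h3, h5⟩ a b hab
    have n3 := fin_ne3 p (by rw [h3]; norm_num)
    have n5 := fin_ne5 p (by rw [h5]; norm_num)
    have h := h1 p hp hp2 n3 n5 2 (2 * a) b (Or.inr (Or.inl rfl))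
      (by rw [hab]; ring) (dvd_mul_right _ _)
    apply Int.ModEq.symm
    rw [Int.modEq_iff_dvd]
    refine fin_of_dvd p hp hp2 n5 2 _ _ (Or.inr (Or.inl rfl)) ?_
    have e : 2 * ((TT p).eval 36 - (8 * a ^ 2 - 2 * (p : ℤ))) =
        2 * (TT p).eval 36 - chi 2 * (2 * ((2 * a) ^ 2 - 30 * b ^ 2)) := by
      have : chi 2 = 1 := by decide
      rw [this, hab]; ring
    rw [e]; exact h
  · rintro ⟨h5, _, h3⟩ a b hab
    have n3 := fin_ne3 p (by rw [h3]; norm_num)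
    have n5 := fin_ne5 p (by rw [h5]; norm_num)
    have h := h1 p hp hp2 n3 n5 5 (5 * a) b (Or.inr (Or.inr (Or.inl rfl)))
      (by rw [hab]; ring) (dvd_mul_right _ _)
    apply Int.ModEq.symm
    rw [Int.modEq_iff_dvd]
    refine fin_of_dvd p hp hp2 n5 5 _ _ (Or.inr (Or.inr (Or.inl rfl))) ?_
    have e : 5 * ((TT p).eval 36 - (2 * (p : ℤ) - 20 * a ^ 2)) =
        5 * (TT p).eval 36 - chi 5 * (2 * ((5 * a) ^ 2 - 30 * b ^ 2)) := by
      have : chi 5 = -1 := by decide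
      rw [this, hab]; ring
    rw [e]; exact h
  · intro hj
    have h7 : 7 ≤ p := by
      by_contra hlt
      have h2' := hp.two_le
      have hc : p = 3 ∨ p = 5 := by
        interval_cases p
        · exact absurd rfl hp2
        · exact Or.inl rfl
        · exact absurd hp (by norm_num)
        · exact Or.inr rfl
        · exact absurd hp (by norm_num)
      rcases hc with rfl | rfl
      · have : jacobiSym (-30) 3 = 0 := by rw [jacobiSym.eq_zero_iff]; decide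
        rw [this] at hj; norm_num at hj
      · have : jacobiSym (-30) 5 = 0 := by rw [jacobiSym.eq_zero_iff]; decide
        rw [this] at hj; norm_num at hj
    apply Int.ModEq.symm
    rw [Int.modEq_iff_dvd, sub_zero]
    exact h2 p hp h7 hj

end Pool.Agent.H32.S36
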