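import Pool.Agent.H32.S36.Targets

set_option autoImplicit false

open Polynomial

namespace Pool.Agent.H32.S36

theorem inf_eval_dvd (m : ℤ) (Q : Polynomial ℤ) (h : ∀ i : ℕ, m ∣ Q.coeff i) (a : ℤ) :
    m ∣ Q.eval a := by
  rw [Polynomial.eval_eq_sum_range]
  exact Finset.dvd_sum (fun i _ => Dvd.dvd.mul_right (h i) _)

theorem inf_fermat (p : ℕ) (hp : p.Prime) (a : ℤ) : (p : ℤ) ∣ a ^ p - a := by
  have := Fact.mk hp
  rw [← ZMod.intCast_zmod_eq_zero_iff_dvd] 
  push_cast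
  rw [ZMod.pow_card, sub_self]

theorem m_INF (h1 : T_PKG) (h2 : T_PFK) (h3 : T_F1) (h4 : T_IN0) (h5 : T_IN1) (h6 : T_IN3)
    (h7 : T_IN4) (h8 : T_ODP) (h9 : T_TTC) (h10 : T_LCS) (h11 : T_A1P) (h12 : T_A6) : T_INF := by
  intro p hp h7p hj
  have := Fact.mk hp
  have hp2 : p ≠ 2 := by omega
  have hp5 : p ≠ 5 := by omega
  obtain ⟨xz, hz, dz, hPK⟩ := h1
  have hFK := h2 _ _ _ _ _ _ hPK
  obtain ⟨P, _, _, hF1⟩ := h3 _ _ _ _ _ _ hPK p hp2 hp5
  have hI0 := h4 xz hz hFK p hp hp2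
  have hI1 := h5 xz hz hFK p hp hp2 (TT p) (TT (p ^ 2)) hF1 hI0
  have hI3 := h6 xz hz hFK p hp hp2 (TT p) hF1
  have e1 := inf_eval_dvd _ _ hI1 36
  have e3 := inf_eval_dvd _ _ hI3 36
  set T := (TT p).eval 36 with hT
  set T2 := (TT (p ^ 2)).eval 36 with hT2
  set U := (thP (TT p)).eval 36 with hU
  set U2 := (thP (TT (p ^ 2))).eval 36 with hU2
  have hq2 : q2.eval 36 = 800 := by norm_num [q2]
  have e1' : (p : ℤ) ^ 2 ∣ T ^ p * (T2 * U - T * U2) + p * T2 * 800 ^ ((p - 1) / 2) * U ^ p := by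
    have : ((TT p) ^ p * (TT (p ^ 2) * thP (TT p) - TT p * thP (TT (p ^ 2)))
      + (p : Polynomial ℤ) * TT (p ^ 2) * q2 ^ ((p - 1) / 2) * thP (TT p) ^ p).eval 36
      = T ^ p * (T2 * U - T * U2) + p * T2 * 800 ^ ((p - 1) / 2) * U ^ p := by
      simp only [eval_add, eval_mul, eval_sub, eval_pow, eval_natCast, hq2, hT, hT2, hU, hU2]
    rw [← this]; exact e1
  have e3' : (p : ℤ) ^ 2 ∣ 34 ^ 2 * T ^ 2 + 2 * T * (LA (TT p)).eval 36 - 800 * U ^ 2 := by
    have : ((X - 2) ^ 2 * TT p ^ 2 + 2 * TT p * LA (TT p) - q2 * thP (TT p) ^ 2 : Polynomial ℤ).eval 36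
      = 34 ^ 2 * T ^ 2 + 2 * T * (LA (TT p)).eval 36 - 800 * U ^ 2 := by
      simp only [eval_add, eval_mul, eval_sub, eval_pow, hq2, hT, hU, eval_X, eval_ofNat]
      norm_num
    rw [← this]; exact e3
  have hA : AA p = 4 * U + 3 * T := h9.2.1 p
  have hA2 : AA (p ^ 2) = 4 * U2 + 3 * T2 := h9.2.1 (p ^ 2)
  have hpp : Prime (p : ℤ) := Nat.prime_iff_prime_int.1 hp
  have hp6 : IsCoprime ((p : ℤ) ^ 2) 6 := by
    refine IsCoprime.pow_left ?_
    have : Nat.Coprime p 6 := by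
      rw [Nat.Prime.coprime_iff_not_dvd hp]
      intro h
      have := Nat.le_of_dvd (by norm_num) h
      omega
    exact_mod_cast Nat.isCoprime_iff_coprime.2 this
  -- p² ∣ A_1(p²)
  have hAp2 : (p : ℤ) ^ 2 ∣ AA (p ^ 2) := by
    obtain ⟨k, hk⟩ := h12 (p ^ 2) (Nat.one_le_iff_ne_zero.2 (pow_ne_zero 2 hp.ne_zero))
    push_cast at hk
    exact (hp6.pow_right).dvd_of_dvd_mul_left hk
  have hAp := h11 p hp h7p
  have hAp1 : (p : ℤ) ∣ AA p := by
    have h := dvd_trans (dvd_pow_self (p : ℤ) two_ne_zero) hAp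
    have e : AA p = (AA p - 3 * p * jacobiSym (-15) p) + p * (3 * jacobiSym (-15) p) := by ring
    rw [e]
    exact dvd_add h (dvd_mul_right _ _)
  -- Euler's criterion for 800
  have h800 : (p : ℤ) ∣ 800 ^ ((p - 1) / 2) - jacobiSym 2 p := by
    rw [← ZMod.intCast_zmod_eq_zero_iff_dvd]
    have e : jacobiSym 2 p = jacobiSym 800 p := by
      have : (800 : ℤ) = 20 ^ 2 * 2 := by norm_num
      rw [this, jacobiSym.mul_left, jacobiSym.pow_left, jacobiSym.sq_one, one_mul]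
      have : Nat.Coprime 20 p := by
        rw [Nat.coprime_comm, Nat.Prime.coprime_iff_not_dvd hp]
        intro h
        have h20 : (20 : ℕ) = 2 ^ 2 * 5 := by norm_num
        rw [h20] at h
        rcases (Nat.Prime.dvd_mul hp).1 h with h | h
        · have := Nat.le_of_dvd (by norm_num) (hp.dvd_of_dvd_pow h); omega
        · have := Nat.le_of_dvd (by norm_num) h; omega
      exact_mod_cast this
    rw [e]
    push_cast
    have h2 : (p - 1) / 2 = p / 2 := by
      have := hp.eq_two_or_odd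
      omega
    rw [h2, ← jacobiSym.legendreSym.to_jacobiSym, legendreSym.eq_pow]
    push_cast
    ring
  -- conclusion of the star identity: p ∣ T
  have hpT : (p : ℤ) ∣ T := by
    set c := jacobiSym (-15) p with hc
    set d := jacobiSym 2 p with hd
    have hcd : c * d = -1 := by
      rw [hc, hd, ← jacobiSym.mul_left]
      norm_num
      exact hj
    -- multiply e1' by 4
    obtain ⟨k1, hk1⟩ := e1'
    obtain ⟨k2, hk2⟩ := hAp2
    obtain ⟨k3, hk3⟩ := hAp
    have s1 : (p : ℤ) ∣ 3 * c * T ^ p * T2 + 4 * T2 * 800 ^ ((p - 1) / 2) * U ^ p := by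
      have h0 : (p : ℤ) * (3 * c * T ^ p * T2 + 4 * T2 * 800 ^ ((p - 1) / 2) * U ^ p)
          = p * (p * (4 * k1 + T ^ (p + 1) * k2 - T ^ p * T2 * k3)) := by
        have e4 : 4 * U = AA p - 3 * T := by rw [hA]; ring
        have e5 : 4 * U2 = AA (p ^ 2) - 3 * T2 := by rw [hA2]; ring
        have e6 : 4 * (T ^ p * (T2 * U - T * U2)) = T ^ p * (T2 * AA p - T * AA (p ^ 2)) := by
          have : 4 * (T ^ p * (T2 * U - T * U2)) = T ^ p * (T2 * (4 * U) - T * (4 * U2)) := by ring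
          rw [this, e4, e5]; ring
        have e7 : AA p = p ^ 2 * k3 + 3 * p * c := by linarith
        have h4 : 4 * (T ^ p * (T2 * U - T * U2) + p * T2 * 800 ^ ((p - 1) / 2) * U ^ p)
          = 4 * (p ^ 2 * k1) := by rw [hk1]
        rw [mul_add, e6, e7, hk2] at h4
        linear_combination h4
      have hp0 : (p : ℤ) ≠ 0 := hpp.ne_zero
      have := mul_left_cancel₀ hp0 h0
      rw [this]
      exact dvd_mul_right _ _
    -- reduce
    have f1 := inf_fermat p hp T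
    have f2 := inf_fermat p hp U
    have s2 : (p : ℤ) ∣ 3 * c * T * T2 - 3 * T2 * d * T := by
      have e : 3 * c * T * T2 - 3 * T2 * d * T =
          (3 * c * T ^ p * T2 + 4 * T2 * 800 ^ ((p - 1) / 2) * U ^ p)
          - 3 * c * T2 * (T ^ p - T) - 4 * T2 * 800 ^ ((p - 1) / 2) * (U ^ p - U)
          - 4 * T2 * U * (800 ^ ((p - 1) / 2) - d) - T2 * d * (4 * U + 3 * T) := by ring
      rw [e]
      refine dvd_sub (dvd_sub (dvd_sub (dvd_sub s1 ?_) ?_) ?_) ?_
      · exact Dvd.dvd.mul_left f1 _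
      · exact Dvd.dvd.mul_left f2 _
      · exact Dvd.dvd.mul_left h800 _
      · rw [← hA]; exact Dvd.dvd.mul_left hAp1 _
    have s3 : (p : ℤ) ∣ 3 * (c - d) * T ^ 3 := by
      have hl := h10 p hp
      have e : 3 * (c - d) * T ^ 3 = (3 * c * T * T2 - 3 * T2 * d * T)
          - 3 * (c - d) * T * (T2 - T ^ 2) := by ring
      rw [e]
      exact dvd_sub s2 (Dvd.dvd.mul_left hl _)
    have hcd2 : c - d = 2 ∨ c - d = -2 := by
      rcases Int.isUnit_iff.1 (IsUnit.of_mul_eq_one (a := c) (-d) (by linarith)) with h | h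
      · left; rw [h] at hcd ⊢; linarith
      · right; rw [h] at hcd ⊢; linarith
    rcases hpp.dvd_or_dvd s3 with h | h
    · exfalso
      have h6 : (p : ℤ) ∣ 6 := by
        rcases hcd2 with h' | h'
        · rw [h'] at h; simpa using h
        · rw [h'] at h
          have : (3 : ℤ) * -2 = -6 := by norm_num
          rw [this, dvd_neg] at h
          exact h
      have := Int.le_of_dvd (by norm_num) h6
      omega
    · exact hpp.dvd_of_dvd_pow h
  have hpU : (p : ℤ) ∣ U := by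
    have h4 : (p : ℤ) ∣ 4 * U := by
      have : 4 * U = AA p - 3 * T := by rw [hA]; ring
      rw [this]; exact dvd_sub hAp1 (Dvd.dvd.mul_left hpT _)
    rcases hpp.dvd_or_dvd h4 with h | h
    · have := Int.le_of_dvd (by norm_num) h
      omega
    · exact h
  -- p ∤ (LA T)(36)
  have hLA : ¬ (p : ℤ) ∣ (LA (TT p)).eval 36 := by
    have hdeg := h9.2.2 p hp.one_le
    refine h7 p hp h7p (TT p) (by rw [hdeg.1]; omega) ?_ ?_ hpT hpU
    · intro h
      have := h (TT p).natDegree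
      rw [coeff_natDegree, hdeg.2] at this
      have := Int.le_of_dvd (by norm_num) this
      omega
    · intro k
      exact dvd_trans (dvd_pow_self (p : ℤ) two_ne_zero) ((h8 p hp hp2).1 k)
  -- conclusion
  obtain ⟨a, ha⟩ := hpT
  obtain ⟨b, hb⟩ := hpU
  have s4 : (p : ℤ) ^ 2 ∣ 2 * T * (LA (TT p)).eval 36 := by
    have e : 2 * T * (LA (TT p)).eval 36 = (34 ^ 2 * T ^ 2 + 2 * T * (LA (TT p)).eval 36 - 800 * U ^ 2)
      - (p : ℤ) ^ 2 * (34 ^ 2 * a ^ 2 - 800 * b ^ 2) := by rw [ha, hb]; ring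
    rw [e]
    exact dvd_sub e3' (dvd_mul_right _ _)
  have c1 : IsCoprime ((p : ℤ) ^ 2) ((LA (TT p)).eval 36) :=
    IsCoprime.pow_left ((Prime.coprime_iff_not_dvd hpp).2 hLA)
  have s5 := c1.dvd_of_dvd_mul_right s4
  have c2 : IsCoprime ((p : ℤ) ^ 2) 2 := by
    refine IsCoprime.pow_left ((Prime.coprime_iff_not_dvd hpp).2 ?_)
    intro h
    have := Int.le_of_dvd (by norm_num) h
    omega
  exact c2.dvd_of_dvd_mul_left s5

end Pool.Agent.H32.S36
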