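import Pool.Agent.H32.S36.Targets

set_option autoImplicit false

open Polynomial

namespace Pool.Agent.H32.S36

theorem m_PKG (h1 : T_FVL) (h2 : T_NU1) (h3 : T_NU2) (h4 : T_VTR) (h5 : T_MFF) (_h6 : T_F4)
    (h7 : T_HHH) (h8 : T_E1) (h9 : T_E2) (h10 : T_CMX) (h11 : T_HLD) (h12 : T_HLM)
    (h13 : T_QUO) (h14 : T_UNI) : T_PKG := by
  obtain ⟨vz, vi, dz, hv, hvi, hd, hvv, he1, he2⟩ := h1
  obtain ⟨nv, ni, nd⟩ := h2 vz vi dz hvv he1 he2
  obtain ⟨nx, nf, nh⟩ := h3 vz vi nv ni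
  obtain ⟨fi, hfi, _, _⟩ := h14 (-(th vz * vi)) 0 nf.1 nf.2.1
  -- the expansion of x
  have hc6 : HL (fun _ => (6 : ℂ)) (zc 6) := by
    have h := HL.const 6
    have e : (HahnSeries.C (6 : ℂ) : LaurentSeries ℂ) = zc 6 := by
      have h1 := zc_intCast 6
      push_cast at h1
      rw [h1]
      exact map_ofNat HahnSeries.C 6
    rwa [e] at h
  have hc25 : HL (fun _ => (25 : ℂ)) (zc 25) := by
    have h := HL.const 25
    have e : (HahnSeries.C (25 : ℂ) : LaurentSeries ℂ) = zc 25 := by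
      have h1 := zc_intCast 25
      push_cast at h1
      rw [h1]
      exact map_ofNat HahnSeries.C 25
    rwa [e] at h
  have hx : HL fx (zc (vz + 6 + 25 * vi)) := by
    have h := (hv.add hc6).add (h12 _ _ _ _ hc25 hvi)
    rw [← zc_mul, ← zc_add, ← zc_add] at h
    refine h.congr (fun τ _ => ?_)
    simp only [fx]
    ring
  have hf : HL ff (zc (-(th vz * vi))) := by
    have h := (h12 _ _ _ _ (h11 _ _ hv).2 hvi).neg
    rw [← zc_th, ← zc_mul, ← zc_neg] at h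
    refine h.congr (fun τ _ => ?_)
    simp only [ff]
    ring
  have hh : HL fh (zc ((vz + 6 + 25 * vi) * fi)) := by
    rw [zc_mul]
    refine h13 fx ff fh _ (zc (-(th vz * vi))) _ 0 hx hf ?_ ?_ ?_ h7.1.hol ?_
    · rw [← zc_mul, hfi, zc_one]
    · rw [zc_coeff, nf.2.1]; norm_num
    · intro n hn
      rw [zc_coeff, nf.1 n hn]; norm_num
    · intro τ hτ
      exact (h7.2 τ hτ).1
  have hhz : (vz + 6 + 25 * vi) * fi * (-(th vz * vi)) = vz + 6 + 25 * vi := by
    rw [mul_assoc, mul_comm fi, hfi, mul_one]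
  obtain ⟨hl, a1, a2, a3, a4, a5, a6, a7, a8⟩ := nh _ hhz
  obtain ⟨xl, b1, b2, b3, b4⟩ := nx
  obtain ⟨dl, d1, d2, d3, d4⟩ := nd
  refine ⟨vz + 6 + 25 * vi, (vz + 6 + 25 * vi) * fi, dz, ?_⟩
  exact
    { mx := h5.1
      mh := h7.1
      md := h4.2
      dne := fun τ hτ => (h4.1 τ hτ).2.2.2.2.2
      lx := hx
      lh := hh
      ld := hd
      xlow := xl
      xm1 := b1
      x0 := b2
      x1 := b3
      x2 := b4
      hlow := hl
      hm1 := a1
      h0 := a2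
      h1 := a3
      h2 := a4
      h3 := a5
      h4 := a6
      h5 := a7
      h6 := a8
      dlow := dl
      d3 := d1
      d4 := d2
      d5 := d3
      d6 := d4
      f4 := fun τ hτ => (h7.2 τ hτ).2
      e1 := h8
      e2 := h9 fx fh _ _ h5.1 h7.1 hx hh xl b1 b2 b3 hl a1 a2 a3
      cm := h10 }

end Pool.Agent.H32.S36
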