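import Pool.Agent.H32.S36.Targets

set_option autoImplicit false

open Polynomial

namespace Pool.Agent.H32.S36

theorem spf_mem_iff (z : ℂ) : z ∈ OO ↔ IsIntegral ℤ z := by
  rfl

theorem spf_conj (z : ℂ) (h : z ∈ OO) : (starRingEnd ℂ) z ∈ OO := by
  rw [spf_mem_iff] at h ⊢
  exact map_isIntegral_int (starRingEnd ℂ) h

theorem spf_t0sq : (10 * t0) ^ 2 = -30 := by
  unfold t0
  have h : ((Real.sqrt (3 / 10) : ℝ) : ℂ) ^ 2 = 3 / 10 := by
    rw [← Complex.ofReal_pow, Real.sq_sqrt (by norm_num)]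
    push_cast
    ring
  rw [mul_pow, mul_pow, h, Complex.I_sq]
  norm_num

theorem spf_t0im : 0 < t0.im := by
  unfold t0
  simp

theorem spf_t0conj : (starRingEnd ℂ) t0 = -t0 := by
  unfold t0
  simp

theorem spf_s30 : 10 * t0 ∈ OO := by
  rw [spf_mem_iff]
  refine ⟨X ^ 2 + C 30, ?_, ?_⟩
  · exact monic_X_pow_add_C _ (by norm_num)
  · have h := spf_t0sq
    simp only [eval₂_add, eval₂_pow, eval₂_X, eval₂_C]
    rw [h]
    simp

theorem spf_int (A : ℤ) (m : ℕ) (hm : m ≠ 0) (o : ℂ) (ho : o ∈ OO) (h : (A : ℂ) = (m : ℂ) * o) :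
    (m : ℤ) ∣ A := by
  rw [spf_mem_iff] at ho
  have hm' : (m : ℂ) ≠ 0 := by exact_mod_cast hm
  have e : o = algebraMap ℚ ℂ ((A : ℚ) / m) := by
    have : o = (A : ℂ) / m := by rw [h]; field_simp
    rw [this]
    simp
  rw [e] at ho
  have h1 : IsIntegral ℤ ((A : ℚ) / m) :=
    (isIntegral_algebraMap_iff (algebraMap ℚ ℂ).injective).1 ho
  obtain ⟨z, hz⟩ := (IsIntegrallyClosed.isIntegral_iff (R := ℤ) (K := ℚ)).1 h1
  refine ⟨z, ?_⟩
  have hm2 : (m : ℚ) ≠ 0 := by exact_mod_cast hm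
  have h2 : (A : ℚ) = m * z := by
    have h3 : (z : ℚ) = A / m := by simpa using hz
    rw [h3]; field_simp
  exact_mod_cast h2

theorem spf_pow (l : ℂ) (hl : l ∈ OO) (t : ℤ) (p : ℕ) (h : l ^ 2 = t * l - (p : ℂ) ^ 2) (n : ℕ) :
    ∃ o ∈ OO, l ^ (n + 1) = (t : ℂ) ^ n * l + (p : ℂ) ^ 2 * o := by
  induction n with
  | zero => exact ⟨0, OO.zero_mem, by simp⟩
  | succ n ih =>
    obtain ⟨o, ho, e⟩ := ih
    refine ⟨o * l - (t : ℂ) ^ n, OO.sub_mem (OO.mul_mem ho hl) (OO.pow_mem (intCast_mem OO t) n), ?_⟩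
    have : l ^ (n + 1 + 1) = l ^ (n + 1) * l := pow_succ _ _
    rw [this, e]
    linear_combination (t : ℂ) ^ n * h

theorem m_SPF (h1 : T_PKG) (h2 : T_F1) (h3 : T_SPM) (h4 : T_CM) (h5 : T_SPL) : T_SPF := by
  intro p hp hp2 hp3 hp5 e u w he huw heu
  have := Fact.mk hp
  obtain ⟨xz, hz, dz, hPK⟩ := h1
  obtain ⟨hx0, hh0⟩ := h4 _ _ _ _ _ _ hPK
  obtain ⟨P, hPT, hsum, _⟩ := h2 _ _ _ _ _ _ hPK p hp2 hp5
  obtain ⟨i, hi⟩ := h5 fh hPK.mh p hp2 hp3 hp5 e u w he huw heu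
  obtain ⟨u1, hu1⟩ := heu
  obtain ⟨e1, he1⟩ : ∃ e1 : ℤ, (30 : ℤ) = e * e1 := by
    rcases he with h | h | h | h <;> subst h
    · exact ⟨30, by norm_num⟩
    · exact ⟨15, by norm_num⟩
    · exact ⟨6, by norm_num⟩
    · exact ⟨3, by norm_num⟩
  have he0 : e ≠ 0 := by rcases he with h | h | h | h <;> rw [h] <;> norm_num
  have heC : (e : ℂ) ≠ 0 := by exact_mod_cast he0
  have hchi2 : chi e ^ 2 = 1 := by
    unfold chi
    split_ifs <;> norm_num
  have hchi2C : (chi e : ℂ) ^ 2 = 1 := by exact_mod_cast hchi2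
  have hpp : Prime (p : ℤ) := Nat.prime_iff_prime_int.1 hp
  -- s = sqrt(-30)
  set s : ℂ := 10 * t0 with hs
  have hs2 : s ^ 2 = -30 := spf_t0sq
  set l : ℂ := chi e * ((u + 10 * w * t0) ^ 2 / e) with hl
  have h30 : (30 : ℂ) = e * e1 := by exact_mod_cast he1
  have hu1C : (u : ℂ) = e * u1 := by exact_mod_cast hu1
  have hl' : l = chi e * (e * u1 ^ 2 - e1 * w ^ 2 + 2 * u1 * w * s) := by
    have : (u + 10 * w * t0 : ℂ) = u + w * s := by rw [hs]; ring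
    rw [hl, this, hu1C]
    field_simp
    have h30' : s ^ 2 = -(e * e1) := by rw [hs2, h30]
    linear_combination (chi e : ℂ) * (w : ℂ) ^ 2 * h30'
  have hlO : l ∈ OO := by
    rw [hl']
    refine OO.mul_mem (intCast_mem OO _) (OO.add_mem (OO.sub_mem ?_ ?_) ?_)
    · have h := intCast_mem OO (e * u1 ^ 2 : ℤ)
      push_cast at h
      exact h
    · have h := intCast_mem OO (e1 * w ^ 2 : ℤ)
      push_cast at h
      exact h
    · refine OO.mul_mem ?_ spf_s30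
      have h := intCast_mem OO (2 * u1 * w : ℤ)
      push_cast at h
      exact h
  set t : ℤ := chi e * (2 * (e * u1 ^ 2 - e1 * w ^ 2)) with ht
  set lb : ℂ := (starRingEnd ℂ) l with hlb
  have hlb' : lb = chi e * (e * u1 ^ 2 - e1 * w ^ 2 - 2 * u1 * w * s) := by
    rw [hlb, hl', hs]
    simp only [map_mul, map_sub, map_add, map_pow, spf_t0conj, map_ofNat,
      map_intCast]
    ring
  have hsumt : l + lb = t := by
    rw [hl', hlb', ht]; push_cast; ring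
  have het : (e : ℤ) * t = chi e * (2 * (u ^ 2 - 30 * w ^ 2)) := by
    rw [ht, he1, hu1]; ring
  have hprod : l * lb = (p : ℂ) ^ 2 := by
    have h6 : (e : ℂ) ^ 2 * (l * lb) = (e : ℂ) ^ 2 * (p : ℂ) ^ 2 := by
      have h7 : ((u : ℂ) ^ 2 + 30 * w ^ 2) = e * p := by exact_mod_cast huw
      rw [hl', hlb']
      have h8 : (e : ℂ) ^ 2 * (chi e * (e * u1 ^ 2 - e1 * w ^ 2 + 2 * u1 * w * s)
          * (chi e * (e * u1 ^ 2 - e1 * w ^ 2 - 2 * u1 * w * s)))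
          = (chi e : ℂ) ^ 2 * ((e * (e * u1 ^ 2 - e1 * w ^ 2)) ^ 2 - 4 * (e * u1) ^ 2 * w ^ 2 * s ^ 2) := by
        ring
      rw [h8, hchi2C, hs2, ← hu1C]
      have h9 : (e : ℂ) * (e * u1 ^ 2 - e1 * w ^ 2) = u ^ 2 - 30 * w ^ 2 := by
        rw [hu1C, h30]; ring
      rw [h9]
      have h10 : ((e : ℂ) * p) ^ 2 = (u ^ 2 + 30 * w ^ 2) ^ 2 := by rw [h7]
      linear_combination -h10
    exact mul_left_cancel₀ (pow_ne_zero 2 heC) h6
  have hl2 : l ^ 2 = t * l - (p : ℂ) ^ 2 := by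
    rw [← hprod, ← hsumt]; ring
  obtain ⟨Q, k, hQ, hid⟩ := h3 _ _ _ _ _ _ hPK p hp2 hp5 l hlO
  have hid0 := hid t0 spf_t0im
  rw [hx0, hsum t0 spf_t0im, hx0] at hid0
  have hpr : ∏ i, (l * fh t0 - hk p fh i t0) = 0 :=
    Finset.prod_eq_zero (Finset.mem_univ i) (by rw [hi]; ring)
  rw [hpr] at hid0
  -- cancel h0
  have hQe : (l ^ p * (aeval (36 : ℂ) P - l)) * 36 ^ k = Q.eval 36 := by
    have hne : fh t0 ^ (p + 1) ≠ 0 := pow_ne_zero _ hh0
    apply mul_right_cancel₀ hne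
    rw [← hid0]
    ring
  -- Q(36) ∈ p² OO
  have hQo : ∃ o ∈ OO, Q.eval 36 = (p : ℂ) ^ 2 * o := by
    choose o ho1 ho2 using hQ
    refine ⟨∑ i ∈ Finset.range (Q.natDegree + 1), o i * 36 ^ i, ?_, ?_⟩
    · refine OO.sum_mem (fun i _ => OO.mul_mem (ho1 i) (OO.pow_mem ?_ _))
      exact_mod_cast intCast_mem OO 36
    · rw [Polynomial.eval_eq_sum_range, Finset.mul_sum]
      refine Finset.sum_congr rfl (fun i _ => ?_)
      rw [ho2 i]; ring
  obtain ⟨o, ho, hoe⟩ := hQo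
  set T : ℤ := (TT p).eval 36 with hT
  have hPeval : ∃ z : ℤ, (aeval (36 : ℂ) P) = (T : ℂ) - (p : ℂ) ^ 2 * z := by
    have hd : (p : ℤ) ^ 2 ∣ (TT p - P).eval 36 := by
      rw [Polynomial.eval_eq_sum_range]
      exact Finset.dvd_sum (fun i _ => Dvd.dvd.mul_right (hPT i) _)
    obtain ⟨z, hz'⟩ := hd
    refine ⟨z, ?_⟩
    have h6 : P.eval 36 = T - (p : ℤ) ^ 2 * z := by
      rw [← hz', eval_sub, hT]; ring
    have h7 : aeval (36 : ℂ) P = ((P.eval 36 : ℤ) : ℂ) := by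
      have := Polynomial.aeval_algebraMap_apply ℂ (36 : ℤ) P
      simpa using this
    rw [h7, h6]; push_cast; ring
  obtain ⟨z, hz'⟩ := hPeval
  obtain ⟨o1, ho1, e5⟩ := spf_pow l hlO t p hl2 (p - 1)
  obtain ⟨o2, ho2, e6⟩ := spf_pow l hlO t p hl2 p
  have hp1 : p - 1 + 1 = p := Nat.sub_add_cancel hp.one_le
  rw [hp1] at e5
  have c36 : (36 : ℂ) ∈ OO := by exact_mod_cast intCast_mem OO 36
  -- 36^k t^(p-1) (T-t) l = p² o3
  have hk3 : ∃ o3 ∈ OO, 36 ^ k * (t : ℂ) ^ (p - 1) * ((T : ℂ) - t) * l = (p : ℂ) ^ 2 * o3 := by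
    refine ⟨o + 36 ^ k * (l ^ p * z) - 36 ^ k * (T * o1) + 36 ^ k * o2, ?_, ?_⟩
    · refine OO.add_mem (OO.sub_mem (OO.add_mem ho ?_) ?_) ?_
      · exact OO.mul_mem (OO.pow_mem c36 _) (OO.mul_mem (OO.pow_mem hlO _) (intCast_mem OO _))
      · exact OO.mul_mem (OO.pow_mem c36 _) (OO.mul_mem (intCast_mem OO _) ho1)
      · exact OO.mul_mem (OO.pow_mem c36 _) ho2
    · rw [hz', hoe] at hQe
      have hpt : (t : ℂ) ^ p = (t : ℂ) ^ (p - 1) * t := by
        rw [← pow_succ, hp1]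
      have e7 : l ^ (p + 1) = l ^ p * l := pow_succ _ _
      rw [hpt] at e6
      linear_combination hQe - 36 ^ k * T * e5 + 36 ^ k * e6 - 36 ^ k * e7
  obtain ⟨o3, ho3, e8⟩ := hk3
  have e9 : 36 ^ k * (t : ℂ) ^ (p - 1) * ((T : ℂ) - t) * lb = (p : ℂ) ^ 2 * (starRingEnd ℂ) o3 := by
    have h := congrArg (starRingEnd ℂ) e8
    simpa only [map_mul, map_pow, map_sub, map_ofNat, map_intCast, map_natCast] using h
  have hfin : (((36 ^ k * t ^ p * (T - t) : ℤ)) : ℂ) = ((p ^ 2 : ℕ) : ℂ) * (o3 + (starRingEnd ℂ) o3) := by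
    push_cast
    have hpt : (t : ℂ) ^ p = (t : ℂ) ^ (p - 1) * t := by
      rw [← pow_succ, hp1]
    rw [hpt]
    linear_combination e8 + e9 - 36 ^ k * (t : ℂ) ^ (p - 1) * ((T : ℂ) - t) * hsumt
  have hdiv := spf_int _ (p ^ 2) (pow_ne_zero 2 hp.ne_zero) _
    (OO.add_mem ho3 (spf_conj o3 ho3)) hfin
  push_cast at hdiv
  -- p does not divide 36 and t
  have hpe : ¬ (p : ℤ) ∣ e := by
    intro h
    have h10 : (p : ℤ) ∣ 10 := by
      rcases he with h' | h' | h' | h' <;> rw [h'] at h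
      · exact dvd_trans h (by norm_num)
      · exact dvd_trans h (by norm_num)
      · exact dvd_trans h (by norm_num)
      · exact h
    have h11 : p ∣ 10 := by exact_mod_cast h10
    have h12 : (10 : ℕ) = 2 * 5 := by norm_num
    rw [h12] at h11
    rcases (Nat.Prime.dvd_mul hp).1 h11 with h | h
    · exact hp2 ((Nat.prime_dvd_prime_iff_eq hp Nat.prime_two).1 h)
    · exact hp5 ((Nat.prime_dvd_prime_iff_eq hp Nat.prime_five).1 h)
  have hnat : ∀ n : ℕ, n = 2 ∨ n = 3 ∨ n = 5 → ¬ (p : ℤ) ∣ (n : ℤ) := by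
    intro n hn h
    have h11 : p ∣ n := by exact_mod_cast h
    rcases hn with rfl | rfl | rfl
    · exact hp2 ((Nat.prime_dvd_prime_iff_eq hp Nat.prime_two).1 h11)
    · exact hp3 ((Nat.prime_dvd_prime_iff_eq hp Nat.prime_three).1 h11)
    · exact hp5 ((Nat.prime_dvd_prime_iff_eq hp Nat.prime_five).1 h11)
  have hn2 : ¬ (p : ℤ) ∣ 2 := by exact_mod_cast hnat 2 (Or.inl rfl)
  have hn3 : ¬ (p : ℤ) ∣ 3 := by exact_mod_cast hnat 3 (Or.inr (Or.inl rfl))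
  have hn5 : ¬ (p : ℤ) ∣ 5 := by exact_mod_cast hnat 5 (Or.inr (Or.inr rfl))
  have hpu : ¬ (p : ℤ) ∣ u := by
    intro h
    have h30w : (p : ℤ) ∣ 30 * w ^ 2 := by
      have : 30 * w ^ 2 = e * p - u * u := by rw [← huw]; ring
      rw [this]
      exact dvd_sub (dvd_mul_left _ _) (Dvd.dvd.mul_left h _)
    have hw : (p : ℤ) ∣ w := by
      rcases hpp.dvd_or_dvd h30w with h' | h'
      · exfalso
        have : (30 : ℤ) = 2 * (3 * 5) := by norm_num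
        rw [this] at h'
        rcases hpp.dvd_or_dvd h' with h' | h'
        · exact hn2 h'
        · rcases hpp.dvd_or_dvd h' with h' | h'
          · exact hn3 h'
          · exact hn5 h'
      · exact hpp.dvd_of_dvd_pow h'
    obtain ⟨a, ha⟩ := h
    obtain ⟨b, hb⟩ := hw
    apply hpe
    refine ⟨a ^ 2 + 30 * b ^ 2, ?_⟩
    have h6 : (p : ℤ) * e = p * (p * (a ^ 2 + 30 * b ^ 2)) := by
      rw [mul_comm (p : ℤ) e, ← huw, ha, hb]; ring
    exact mul_left_cancel₀ hpp.ne_zero h6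
  have hpt : ¬ (p : ℤ) ∣ t := by
    intro h
    have h6 : (p : ℤ) ∣ e * t := Dvd.dvd.mul_left h _
    rw [het] at h6
    have h7 : (p : ℤ) ∣ 2 * 2 * (u * u) := by
      have h8 : 2 * 2 * (u * u) = chi e * (chi e * (2 * (u ^ 2 - 30 * w ^ 2))) + 2 * (e * p) := by
        rw [← huw]
        linear_combination -(2 * (u ^ 2 - 30 * w ^ 2)) * hchi2
      rw [h8]
      exact dvd_add (Dvd.dvd.mul_left h6 _) ⟨2 * e, by ring⟩
    rcases hpp.dvd_or_dvd h7 with h | h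
    · rcases hpp.dvd_or_dvd h with h | h <;> exact hn2 h
    · rcases hpp.dvd_or_dvd h with h | h <;> exact hpu h
  have hp36 : ¬ (p : ℤ) ∣ 36 := by
    intro h
    have : (36 : ℤ) = 2 * (2 * (3 * 3)) := by norm_num
    rw [this] at h
    rcases hpp.dvd_or_dvd h with h | h
    · exact hn2 h
    · rcases hpp.dvd_or_dvd h with h | h
      · exact hn2 h
      · rcases hpp.dvd_or_dvd h with h | h <;> exact hn3 h
  have hcop : IsCoprime ((p : ℤ) ^ 2) (36 ^ k * t ^ p) :=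
    IsCoprime.pow_left (IsCoprime.mul_right ((hpp.coprime_iff_not_dvd.2 hp36).pow_right)
      ((hpp.coprime_iff_not_dvd.2 hpt).pow_right))
  have hTt : (p : ℤ) ^ 2 ∣ T - t := hcop.dvd_of_dvd_mul_left hdiv
  have hres : e * T - chi e * (2 * (u ^ 2 - 30 * w ^ 2)) = e * (T - t) := by
    rw [mul_sub e T t, het]
  rw [hres]
  exact Dvd.dvd.mul_left hTt _

end Pool.Agent.H32.S36
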