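import Pool.Agent.H12.S36.GEN
import Pool.Agent.H12.S36.RED
import Pool.Agent.H12.S36.SPL
import Pool.Agent.H14.S36.CM
import Pool.Agent.H14.S36.CMX
import Pool.Agent.H14.S36.D3
import Pool.Agent.H14.S36.E1
import Pool.Agent.H14.S36.E2
import Pool.Agent.H14.S36.VEE
import Pool.Agent.H19.S36.IN1
import Pool.Agent.H19.S36.IN3
import Pool.Agent.H19.S36.LAG
import Pool.Agent.H19.S36.TRI
import Pool.Agent.H24.S36.NU1
import Pool.Agent.H24.S36.P3C
import Pool.Agent.H26.S36.LIO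
import Pool.Agent.H26.S36.QUO
import Pool.Agent.H32.S36.A1F
import Pool.Agent.H32.S36.CER
import Pool.Agent.H32.S36.INF
import Pool.Agent.H32.S36.PKG
import Pool.Agent.H32.S36.SPF
import Pool.Agent.H42.S36.A23
import Pool.Agent.H42.S36.FRB
import Pool.Agent.H42.S36.IN4
import Pool.Agent.H42.S36.LCS
import Pool.Agent.H42.S36.NU2
import Pool.Agent.H42.S36.UNI
import Pool.Agent.H48.S36.A1P
import Pool.Agent.H48.S36.A6
import Pool.Agent.H48.S36.SPM
import Pool.Agent.H54.S36.BID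
import Pool.Agent.H54.S36.BPP
import Pool.Agent.H54.S36.LMR
import Pool.Agent.H54.S36.LUC
import Pool.Agent.H54.S36.SAA
import Pool.Agent.H60.S36.HL2
import Pool.Agent.H62.S36.ODP
import Pool.Agent.H62.S36.TTC
import Pool.Agent.H65.S36.BRA
import Pool.Agent.H65.S36.HHH
import Pool.Agent.H65.S36.HKP
import Pool.Agent.H73.S36.ETA
import Pool.Agent.H73.S36.HKL
import Pool.Agent.H73.S36.P3
import Pool.Agent.H73.S36.PFK
import Pool.Agent.H74.S36.F4
import Pool.Agent.H74.S36.MFF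
import Pool.Agent.H74.S36.VTR
import Pool.Agent.H75.S36.EUL
import Pool.Agent.H75.S36.FVL
import Pool.Agent.H75.S36.HLS
import Pool.Agent.H75.S36.HLX
import Pool.Agent.H77.S36.F1
import Pool.Agent.H77.S36.IN0
import Pool.Agent.H77.S36.P3N
import Pool.Agent.H94.S36.HKM
import Pool.Agent.H94.S36.HKS
import Pool.Agent.H94.S36.HP
import Pool.Agent.H94.S36.MFA
import Pool.Agent.H94.S36.POL2
import Pool.Agent.H32.S36.Fin2

set_option autoImplicit false

namespace Pool.Agent.H32.S36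

theorem all_LMR : T_LMR := Pool.Agent.H32.S36.m_LMR

theorem all_UNI : T_UNI := Pool.Agent.H32.S36.m_UNI

theorem all_LUC : T_LUC := Pool.Agent.H32.S36.m_LUC

theorem all_FRB : T_FRB := Pool.Agent.H32.S36.m_FRB

theorem all_A23 : T_A23 := Pool.Agent.H32.S36.m_A23

theorem all_LCS : T_LCS := Pool.Agent.H32.S36.m_LCS

theorem all_IN4 : T_IN4 := Pool.Agent.H32.S36.m_IN4

theorem all_HLD : T_HLD := Pool.Agent.H60.S36.m_HLD

theorem all_HLL : T_HLL := Pool.Agent.H32.S36.m_HLL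

theorem all_HLX : T_HLX := Pool.Agent.H32.S36.m_HLX

theorem all_HLM : T_HLM := Pool.Agent.H60.S36.m_HLM

theorem all_HLT : T_HLT := Pool.Agent.H32.S36.m_HLT

theorem all_RED : T_RED := Pool.Agent.H12.S36.m_RED

theorem all_LIO : T_LIO := Pool.Agent.H32.S36.m_LIO all_RED all_HLL

theorem all_P3N : T_P3N := Pool.Agent.H32.S36.m_P3N

theorem all_POL0 : T_POL0 := Pool.Agent.H32.S36.m_POL0 all_LIO all_HLM

theorem all_P3C : T_P3C := Pool.Agent.H32.S36.m_P3C

theorem all_VEE : T_VEE := Pool.Agent.H32.S36.m_VEE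

theorem all_EUL : T_EUL := Pool.Agent.H32.S36.m_EUL

theorem all_ETA : T_ETA := Pool.Agent.H32.S36.m_ETA

theorem all_CER : T_CER := Pool.Agent.H32.S36.m_CER

theorem all_SUM : T_SUM := Pool.Agent.H62.S36.m_SUM

theorem all_LLC : T_LLC := Pool.Agent.H62.S36.m_LLC

theorem all_CMX : T_CMX := Pool.Agent.H32.S36.m_CMX all_VEE

theorem all_NU1 : T_NU1 := Pool.Agent.H32.S36.m_NU1

theorem all_NU2 : T_NU2 := Pool.Agent.H32.S36.m_NU2

theorem all_SAA : T_SAA := Pool.Agent.H32.S36.m_SAA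

theorem all_TRI : T_TRI := Pool.Agent.H32.S36.m_TRI

theorem all_BRA : T_BRA := Pool.Agent.H32.S36.m_BRA

theorem all_RHO : T_RHO := Pool.Agent.H62.S36.m_RHO

theorem all_TTC : T_TTC := Pool.Agent.H62.S36.m_TTC

theorem all_HLV : T_HLV := Pool.Agent.H32.S36.m_HLV

theorem all_HLU : T_HLU := Pool.Agent.H32.S36.m_HLU

theorem all_A1F : T_A1F := Pool.Agent.H32.S36.m_A1F all_LMR all_CER

theorem all_POL2 : T_POL2 := Pool.Agent.H32.S36.m_POL2 all_LIO all_HLM

theorem all_GEN : T_GEN := Pool.Agent.H12.S36.m_GEN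

theorem all_LAG : T_LAG := Pool.Agent.H32.S36.m_LAG

theorem all_IN1 : T_IN1 := Pool.Agent.H32.S36.m_IN1 all_LAG all_FRB all_UNI all_TRI

theorem all_IN3 : T_IN3 := Pool.Agent.H32.S36.m_IN3 all_LAG all_UNI all_TRI

theorem all_BID : T_BID := Pool.Agent.H32.S36.m_BID all_SAA

theorem all_BPP : T_BPP := Pool.Agent.H32.S36.m_BPP all_BID all_LUC

theorem all_A1P : T_A1P := Pool.Agent.H48.S36.m_A1P all_A1F all_LUC

theorem all_ODP : T_ODP := Pool.Agent.H62.S36.m_ODP all_RHO all_LLC all_TTC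

theorem all_A6 : T_A6 := Pool.Agent.H48.S36.m_A6 all_A1F

theorem all_HKS : T_HKS := Pool.Agent.H32.S36.m_HKS all_HLV

theorem all_D3 : T_D3 := Pool.Agent.H32.S36.m_D3 all_LAG all_UNI

theorem all_PFK : T_PFK := Pool.Agent.H32.S36.m_PFK all_HLU all_HLM all_HLD

theorem all_IN0 : T_IN0 := Pool.Agent.H32.S36.m_IN0 all_D3 all_ODP

theorem all_QUO : T_QUO := Pool.Agent.H32.S36.m_QUO all_HLX all_HLL all_HLM all_HLU

theorem all_HKL : T_HKL := Pool.Agent.H32.S36.m_HKL all_HLV all_HLT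

theorem all_VTR : T_VTR := Pool.Agent.H32.S36.m_VTR all_ETA

theorem all_E2 : T_E2 := Pool.Agent.H32.S36.m_E2 all_BRA all_LIO all_HLM all_HLD

theorem all_SPL : T_SPL := Pool.Agent.H12.S36.m_SPL all_GEN

theorem all_HLS : T_HLS := Pool.Agent.H32.S36.m_HLS all_HLU all_HLT

theorem all_HKP : T_HKP := Pool.Agent.H32.S36.m_HKP all_GEN

theorem all_MFF : T_MFF := Pool.Agent.H32.S36.m_MFF all_VTR

theorem all_FVL : T_FVL := Pool.Agent.H32.S36.m_FVL all_EUL all_VEE all_VTR all_QUO all_HLM all_HLV all_UNI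

theorem all_HKM : T_HKM := Pool.Agent.H32.S36.m_HKM all_HKP

theorem all_P3 : T_P3 := Pool.Agent.H32.S36.m_P3 all_P3N all_P3C all_HKM all_LIO all_HLM all_HLV

theorem all_CM : T_CM := Pool.Agent.H32.S36.m_CM all_P3

theorem all_F4 : T_F4 := Pool.Agent.H32.S36.m_F4 all_MFF all_VTR all_FVL all_NU1 all_NU2 all_LIO all_HLD all_HLM all_QUO all_UNI

theorem all_HHH : T_HHH := Pool.Agent.H32.S36.m_HHH all_MFF all_VTR all_F4 all_FVL all_HLD all_HLM all_HLL all_NU1 all_NU2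

theorem all_SPM : T_SPM := Pool.Agent.H48.S36.m_SPM all_HKM all_HKL all_HLM all_HLV all_HLS all_POL0 all_HLU

theorem all_HP : T_HP := Pool.Agent.H32.S36.m_HP all_HKM all_HKS all_POL2 all_HLU all_HLM

theorem all_E1 : T_E1 := Pool.Agent.H32.S36.m_E1 all_MFF all_HHH all_VTR

theorem all_F1 : T_F1 := Pool.Agent.H32.S36.m_F1 all_HP all_D3 all_PFK all_TRI all_ODP all_TTC

theorem all_PKG : T_PKG := Pool.Agent.H32.S36.m_PKG all_FVL all_NU1 all_NU2 all_VTR all_MFF all_F4 all_HHH all_E1 all_E2 all_CMX all_HLD all_HLM all_QUO all_UNI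

theorem all_INF : T_INF := Pool.Agent.H32.S36.m_INF all_PKG all_PFK all_F1 all_IN0 all_IN1 all_IN3 all_IN4 all_ODP all_TTC all_LCS all_A1P all_A6

theorem all_SPF : T_SPF := Pool.Agent.H32.S36.m_SPF all_PKG all_F1 all_SPM all_CM all_SPL

end Pool.Agent.H32.S36
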