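import Pool.Agent.H32.S36.Defs

set_option autoImplicit false

open Complex Polynomial

namespace Pool.Agent.H32.S36

variable {R : Type} [CommRing R]

@[simp] theorem th_coeff (f : LaurentSeries R) (n : ℤ) : (th f).coeff n = (n : R) * f.coeff n := rfl

theorem th_add (f g : LaurentSeries R) : th (f + g) = th f + th g := by
  ext n; simp [mul_add]

theorem th_sub (f g : LaurentSeries R) : th (f - g) = th f - th g := by
  ext n; simp [mul_sub]

theorem th_neg (f : LaurentSeries R) : th (-f) = - th f := by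
  ext n; simp

theorem th_zero : th (0 : LaurentSeries R) = 0 := by
  ext n; simp

theorem th_support (f : LaurentSeries R) : (th f).support ⊆ f.support := by
  intro n hn
  simp only [HahnSeries.mem_support, th_coeff] at hn ⊢
  intro h
  exact hn (by rw [h, mul_zero])

theorem th_mul (f g : LaurentSeries R) : th (f * g) = th f * g + f * th g := by
  ext n
  rw [th_coeff, HahnSeries.coeff_add,
    HahnSeries.coeff_mul_left' (x := th f) (y := g) f.isPWO_support (th_support f),
    HahnSeries.coeff_mul_right' (x := f) (y := th g) g.isPWO_support (th_support g),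
    HahnSeries.coeff_mul, Finset.mul_sum,
    ← Finset.sum_add_distrib]
  refine Finset.sum_congr rfl (fun ij hij => ?_)
  have h : ij.1 + ij.2 = n := by
    simp only [HahnSeries.mem_support, Finset.mem_antidiagonal] at hij
    exact hij.2.2
  rw [th_coeff, th_coeff, ← h]
  push_cast
  ring

theorem th_one : th (1 : LaurentSeries R) = 0 := by
  have h := th_mul (1 : LaurentSeries R) 1
  rw [mul_one, mul_one, one_mul] at h
  exact left_eq_add.mp h

theorem th_pow (f : LaurentSeries R) (n : ℕ) : th (f ^ n) = n * f ^ (n - 1) * th f := by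
  induction n with
  | zero => simp [th_one]
  | succ n ih =>
    rw [pow_succ, th_mul, ih]
    cases n with
    | zero => simp
    | succ k =>
      simp only [Nat.add_sub_cancel]
      push_cast
      ring

theorem th_natCast (n : ℕ) : th (n : LaurentSeries R) = 0 := by
  induction n with
  | zero => simp [th_zero]
  | succ k ih => rw [Nat.cast_succ, th_add, ih, th_one, add_zero]

theorem th_intCast (n : ℤ) : th (n : LaurentSeries R) = 0 := by
  cases n with
  | ofNat k => simpa using th_natCast (R := R) k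
  | negSucc k =>
    rw [Int.cast_negSucc, th_neg, th_natCast, neg_zero]

theorem th_natCast_mul (n : ℕ) (f : LaurentSeries R) : th ((n : LaurentSeries R) * f) = n * th f := by
  rw [th_mul, th_natCast, zero_mul, zero_add]

theorem th_intCast_mul (n : ℤ) (f : LaurentSeries R) : th ((n : LaurentSeries R) * f) = n * th f := by
  rw [th_mul, th_intCast, zero_mul, zero_add]

theorem th_dvd (m : ℤ) (f : LaurentSeries R) (h : (m : LaurentSeries R) ∣ f) :
    (m : LaurentSeries R) ∣ th f := by
  obtain ⟨g, rfl⟩ := h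
  exact ⟨th g, th_intCast_mul m g⟩

/-- chain rule: `th (P(x)) = P'(x) th x` -/
theorem th_aeval (x : LaurentSeries R) (P : Polynomial ℤ) :
    th (aeval x P) = aeval x (derivative P) * th x := by
  induction P using Polynomial.induction_on with
  | C a => simp [th_intCast]
  | add p q hp hq => simp only [map_add, th_add, hp, hq, add_mul]
  | monomial n a ih =>
    have e1 : aeval x (C a * X ^ (n + 1) : Polynomial ℤ) = (a : LaurentSeries R) * x ^ (n + 1) := by
      simp
    have e2 : aeval x (derivative (C a * X ^ (n + 1) : Polynomial ℤ))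
        = (a : LaurentSeries R) * ((n + 1 : ℕ) * x ^ n) := by
      rw [derivative_C_mul_X_pow]
      simp
      ring
    rw [e1, e2, th_intCast_mul, th_pow, Nat.add_sub_cancel]
    ring

/-! ### coefficients and divisibility -/

theorem intCast_mul_coeff (m : ℤ) (f : LaurentSeries R) (n : ℤ) :
    ((m : LaurentSeries R) * f).coeff n = m * f.coeff n := by
  have h : (m : LaurentSeries R) = HahnSeries.C (m : R) := by simp
  rw [h, HahnSeries.C_mul_eq_smul, HahnSeries.coeff_smul, smul_eq_mul]

theorem dvd_iff (m : ℤ) (f : LaurentSeries ℤ) :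
    (m : LaurentSeries ℤ) ∣ f ↔ ∀ n, m ∣ f.coeff n := by
  constructor
  · rintro ⟨g, rfl⟩ n
    rw [intCast_mul_coeff]
    exact dvd_mul_right _ _
  · intro h
    choose g hg using h
    by_cases hm : m = 0
    · refine ⟨0, ?_⟩
      ext n
      rw [mul_zero, hg n, hm, zero_mul]
      rfl
    · refine ⟨⟨g, f.isPWO_support.mono ?_⟩, ?_⟩
      · intro n hn
        simp only [Function.mem_support] at hn
        simp only [HahnSeries.mem_support]
        rw [hg n]
        exact mul_ne_zero hm hn
      · ext n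
        rw [intCast_mul_coeff]
        exact hg n

/-! ### `VV` -/

theorem VV_coeff_mul (d : ℕ) (hd : 0 < d) (f : LaurentSeries R) (n : ℤ) :
    (VV d hd f).coeff (d * n) = f.coeff n := by
  exact HahnSeries.embDomain_coeff
    (f := ⟨⟨AddMonoidHom.mulLeft (d : ℤ), mulL_inj d hd⟩, mulL_le d hd _ _⟩) (a := n) (x := f)

theorem VV_coeff_of_not_dvd (d : ℕ) (hd : 0 < d) (f : LaurentSeries R) (n : ℤ) (hn : ¬ (d : ℤ) ∣ n) :
    (VV d hd f).coeff n = 0 := by
  refine HahnSeries.embDomain_of_notMem_range
    (f := ⟨⟨AddMonoidHom.mulLeft (d : ℤ), mulL_inj d hd⟩, mulL_le d hd _ _⟩) (x := f) ?_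
  rintro ⟨a, rfl⟩
  exact hn ⟨a, rfl⟩

theorem VV_coeff (d : ℕ) (hd : 0 < d) (f : LaurentSeries R) (n : ℤ) :
    (VV d hd f).coeff n = if (d : ℤ) ∣ n then f.coeff (n / d) else 0 := by
  have hd' : (d : ℤ) ≠ 0 := by exact_mod_cast hd.ne'
  split_ifs with h
  · obtain ⟨k, rfl⟩ := h
    rw [VV_coeff_mul, Int.mul_ediv_cancel_left _ hd']
  · exact VV_coeff_of_not_dvd d hd f n h

theorem th_VV (d : ℕ) (hd : 0 < d) (f : LaurentSeries R) : th (VV d hd f) = d * VV d hd (th f) := by
  ext n
  have h : ((d : LaurentSeries R) * VV d hd (th f)).coeff n = (d : R) * (VV d hd (th f)).coeff n := by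
    have := intCast_mul_coeff (R := R) (d : ℤ) (VV d hd (th f)) n
    push_cast at this
    exact this
  rw [th_coeff, h, VV_coeff, VV_coeff]
  split_ifs with h
  · obtain ⟨k, rfl⟩ := h
    have hd' : (d : ℤ) ≠ 0 := by exact_mod_cast hd.ne'
    rw [th_coeff, Int.mul_ediv_cancel_left _ hd']
    push_cast
    ring
  · simp

theorem VV_dvd (d : ℕ) (hd : 0 < d) (m : ℤ) (f : LaurentSeries R) (h : (m : LaurentSeries R) ∣ f) :
    (m : LaurentSeries R) ∣ VV d hd f := by
  obtain ⟨g, rfl⟩ := h
  exact ⟨VV d hd g, by rw [map_mul, map_intCast]⟩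

/-! ### `zc` -/

@[simp] theorem zc_coeff (f : LaurentSeries ℤ) (n : ℤ) : (zc f).coeff n = (f.coeff n : ℂ) := by
  simp [zc]

theorem zc_add (f g : LaurentSeries ℤ) : zc (f + g) = zc f + zc g := by
  ext n; simp

theorem zc_sub (f g : LaurentSeries ℤ) : zc (f - g) = zc f - zc g := by
  ext n; simp

theorem zc_neg (f : LaurentSeries ℤ) : zc (-f) = - zc f := by
  ext n; simp

theorem zc_zero : zc 0 = 0 := by
  ext n; simp

theorem zc_one : zc 1 = 1 := by
  ext n
  rw [zc_coeff, HahnSeries.coeff_one, HahnSeries.coeff_one]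
  split_ifs <;> simp

theorem zc_mul (f g : LaurentSeries ℤ) : zc (f * g) = zc f * zc g := by
  unfold zc
  exact HahnSeries.map_mul (Int.castRingHom ℂ : ℤ →ₙ+* ℂ)

theorem zc_injective : Function.Injective zc := by
  intro f g h
  ext n
  have := congrArg (fun k => k.coeff n) h
  simpa using this

/-- `zc` as a ring homomorphism -/
noncomputable def zcHom : LaurentSeries ℤ →+* LaurentSeries ℂ where
  toFun := zc
  map_one' := zc_one
  map_mul' := zc_mul
  map_zero' := zc_zero
  map_add' := zc_add

@[simp] theorem zcHom_apply (f : LaurentSeries ℤ) : zcHom f = zc f := rfl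

theorem zc_pow (f : LaurentSeries ℤ) (n : ℕ) : zc (f ^ n) = zc f ^ n := map_pow zcHom f n

theorem zc_intCast (m : ℤ) : zc (m : LaurentSeries ℤ) = m := map_intCast zcHom m

theorem zc_th (f : LaurentSeries ℤ) : zc (th f) = th (zc f) := by
  ext n; simp

theorem zc_VV (d : ℕ) (hd : 0 < d) (f : LaurentSeries ℤ) : zc (VV d hd f) = VV d hd (zc f) := by
  ext n
  rw [zc_coeff, VV_coeff, VV_coeff]
  split_ifs <;> simp

theorem zc_aeval (f : LaurentSeries ℤ) (P : Polynomial ℤ) :
    zc (aeval f P) = aeval (zc f) P := by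
  have h := Polynomial.hom_eval₂ P (algebraMap ℤ (LaurentSeries ℤ)) zcHom f
  rw [aeval_def, aeval_def]
  rw [show zc (eval₂ (algebraMap ℤ (LaurentSeries ℤ)) f P)
    = zcHom (eval₂ (algebraMap ℤ (LaurentSeries ℤ)) f P) from rfl, h]
  congr 1
  exact RingHom.ext_int _ _

/-! ### easy facts on `HL` -/

theorem HL.congr {F G : ℂ → ℂ} {f : LaurentSeries ℂ} (h : HL F f)
    (hFG : ∀ τ : ℂ, 0 < τ.im → F τ = G τ) : HL G f := by
  intro τ hτ
  rw [← hFG τ hτ]
  exact h τ hτ

theorem HL.add {F G : ℂ → ℂ} {f g : LaurentSeries ℂ} (hF : HL F f) (hG : HL G g) :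
    HL (fun τ => F τ + G τ) (f + g) := by
  intro τ hτ
  have h := (hF τ hτ).add (hG τ hτ)
  simpa [add_mul] using h

theorem HL.neg {F : ℂ → ℂ} {f : LaurentSeries ℂ} (hF : HL F f) :
    HL (fun τ => - F τ) (-f) := by
  intro τ hτ
  have h := (hF τ hτ).neg
  simpa using h

theorem HL.sub {F G : ℂ → ℂ} {f g : LaurentSeries ℂ} (hF : HL F f) (hG : HL G g) :
    HL (fun τ => F τ - G τ) (f - g) := by
  intro τ hτ
  have h := (hF τ hτ).sub (hG τ hτ)
  simpa [sub_mul] using h

theorem HL.const (c : ℂ) : HL (fun _ => c) (HahnSeries.C c) := by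
  intro τ hτ
  have h : ∀ n : ℤ, n ≠ 0 → (HahnSeries.C c : LaurentSeries ℂ).coeff n * qq τ ^ n = 0 := by
    intro n hn
    rw [HahnSeries.C_apply, HahnSeries.coeff_single_of_ne hn, zero_mul]
  have h2 := hasSum_single (f := fun n : ℤ => (HahnSeries.C c : LaurentSeries ℂ).coeff n * qq τ ^ n) 0 h
  simpa using h2

theorem HL.smul {F : ℂ → ℂ} {f : LaurentSeries ℂ} (c : ℂ) (hF : HL F f) :
    HL (fun τ => c * F τ) (HahnSeries.C c * f) := by
  intro τ hτ
  have h := (hF τ hτ).mul_left c
  rw [HahnSeries.C_mul_eq_smul]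
  simpa [mul_assoc] using h

theorem HL.sum {ι : Type} (s : Finset ι) {F : ι → ℂ → ℂ} {f : ι → LaurentSeries ℂ}
    (h : ∀ i ∈ s, HL (F i) (f i)) : HL (fun τ => ∑ i ∈ s, F i τ) (∑ i ∈ s, f i) := by
  classical
  induction s using Finset.induction_on with
  | empty =>
    have h0 := HL.const 0
    simpa using h0
  | insert a s ha ih =>
    rw [Finset.sum_insert ha]
    simp only [Finset.sum_insert ha]
    exact (h a (Finset.mem_insert_self a s)).add
      (ih (fun i hi => h i (Finset.mem_insert_of_mem hi)))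

/-! ### twists -/

@[simp] theorem tw_coeff (c : ℂ) (f : LaurentSeries ℂ) (n : ℤ) :
    (tw c f).coeff n = f.coeff n * Complex.exp (2 * Real.pi * Complex.I * c) ^ n := rfl

theorem tw_support (c : ℂ) (f : LaurentSeries ℂ) : (tw c f).support ⊆ f.support := by
  intro n hn
  simp only [HahnSeries.mem_support, tw_coeff] at hn ⊢
  intro h
  exact hn (by rw [h, zero_mul])

theorem tw_add (c : ℂ) (f g : LaurentSeries ℂ) : tw c (f + g) = tw c f + tw c g := by
  ext n; simp [add_mul]

theorem tw_mul (c : ℂ) (f g : LaurentSeries ℂ) : tw c (f * g) = tw c f * tw c g := by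
  ext n
  rw [tw_coeff, HahnSeries.coeff_mul_left' (x := tw c f) f.isPWO_support (tw_support c f),
    HahnSeries.coeff_mul, Finset.sum_mul]
  have hs : Finset.antidiagonal f.isPWO_support g.isPWO_support n
      = Finset.antidiagonal f.isPWO_support (tw c g).isPWO_support n := by
    ext ij
    simp only [Finset.mem_antidiagonal, HahnSeries.mem_support, tw_coeff]
    have : g.coeff ij.2 * Complex.exp (2 * Real.pi * Complex.I * c) ^ ij.2 ≠ 0 ↔ g.coeff ij.2 ≠ 0 := by
      rw [mul_ne_zero_iff]
      exact ⟨fun h => h.1, fun h => ⟨h, zpow_ne_zero _ (Complex.exp_ne_zero _)⟩⟩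
    rw [this]
  rw [← hs]
  refine Finset.sum_congr rfl (fun ij hij => ?_)
  have h : ij.1 + ij.2 = n := by
    simp only [Finset.mem_antidiagonal] at hij
    exact hij.2.2
  rw [tw_coeff, tw_coeff, ← h, zpow_add₀ (Complex.exp_ne_zero _)]
  ring

/-! ### coefficients in a subring -/

/-- all coefficients are in the subring `S` -/
def CIn (S : Subring ℂ) (f : LaurentSeries ℂ) : Prop := ∀ n : ℤ, f.coeff n ∈ S

theorem CIn.add {S : Subring ℂ} {f g : LaurentSeries ℂ} (hf : CIn S f) (hg : CIn S g) :
    CIn S (f + g) := fun n => by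
  rw [HahnSeries.coeff_add]; exact S.add_mem (hf n) (hg n)

theorem CIn.neg {S : Subring ℂ} {f : LaurentSeries ℂ} (hf : CIn S f) : CIn S (-f) := fun n => by
  rw [HahnSeries.coeff_neg]; exact S.neg_mem (hf n)

theorem CIn.sub {S : Subring ℂ} {f g : LaurentSeries ℂ} (hf : CIn S f) (hg : CIn S g) :
    CIn S (f - g) := fun n => by
  rw [HahnSeries.coeff_sub]; exact S.sub_mem (hf n) (hg n)

theorem CIn.mul {S : Subring ℂ} {f g : LaurentSeries ℂ} (hf : CIn S f) (hg : CIn S g) :
    CIn S (f * g) := fun n => by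
  rw [HahnSeries.coeff_mul]
  exact S.sum_mem (fun ij _ => S.mul_mem (hf _) (hg _))

theorem CIn.zero (S : Subring ℂ) : CIn S 0 := fun n => by
  rw [HahnSeries.coeff_zero]; exact S.zero_mem

theorem CIn.one (S : Subring ℂ) : CIn S 1 := fun n => by
  rw [HahnSeries.coeff_one]
  split_ifs
  · exact S.one_mem
  · exact S.zero_mem

theorem CIn.pow {S : Subring ℂ} {f : LaurentSeries ℂ} (hf : CIn S f) (n : ℕ) : CIn S (f ^ n) := by
  induction n with
  | zero => rw [pow_zero]; exact CIn.one S
  | succ k ih => rw [pow_succ]; exact ih.mul hf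

theorem CIn.C {S : Subring ℂ} {c : ℂ} (hc : c ∈ S) : CIn S (HahnSeries.C c) := fun n => by
  rw [HahnSeries.C_apply]
  by_cases h : n = 0
  · subst h; simpa using hc
  · rw [HahnSeries.coeff_single_of_ne h]; exact S.zero_mem

theorem CIn.zc (S : Subring ℂ) (f : LaurentSeries ℤ) : CIn S (zc f) := fun n => by
  rw [zc_coeff]; exact intCast_mem S _

theorem CIn.VV {S : Subring ℂ} {f : LaurentSeries ℂ} (hf : CIn S f) (d : ℕ) (hd : 0 < d) :
    CIn S (VV d hd f) := fun n => by
  rw [VV_coeff]
  split_ifs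
  · exact hf _
  · exact S.zero_mem

theorem CIn.sum {S : Subring ℂ} {ι : Type} (s : Finset ι) {f : ι → LaurentSeries ℂ}
    (h : ∀ i ∈ s, CIn S (f i)) : CIn S (∑ i ∈ s, f i) := by
  classical
  induction s using Finset.induction_on with
  | empty => rw [Finset.sum_empty]; exact CIn.zero S
  | insert a s ha ih =>
    rw [Finset.sum_insert ha]
    exact (h a (Finset.mem_insert_self a s)).add
      (ih (fun i hi => h i (Finset.mem_insert_of_mem hi)))

theorem CIn.prod {S : Subring ℂ} {ι : Type} (s : Finset ι) {f : ι → LaurentSeries ℂ}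
    (h : ∀ i ∈ s, CIn S (f i)) : CIn S (∏ i ∈ s, f i) := by
  classical
  induction s using Finset.induction_on with
  | empty => rw [Finset.prod_empty]; exact CIn.one S
  | insert a s ha ih =>
    rw [Finset.prod_insert ha]
    exact (h a (Finset.mem_insert_self a s)).mul
      (ih (fun i hi => h i (Finset.mem_insert_of_mem hi)))

end Pool.Agent.H32.S36
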