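import Mathlib

set_option autoImplicit false

open Complex Polynomial

namespace Pool.Agent.H32.S36

noncomputable section

/-! ### 1. Elementary part -/

/-- `c_i(m) = ∑_{n<m} C(n,i)^4` -/
def cc (m i : ℕ) : ℤ := ∑ n ∈ Finset.range m, ((n.choose i : ℕ) : ℤ) ^ 4

/-- `T_m(x) = ∑_{n<m} ∑_i C(n,i)^4 x^i` -/
def TT (m : ℕ) : Polynomial ℤ := ∑ i ∈ Finset.range m, Polynomial.C (cc m i) * Polynomial.X ^ i

/-- `A_1(m) = 4 (θ T_m)(36) + 3 T_m(36)` -/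
def AA (m : ℕ) : ℤ := ∑ i ∈ Finset.range m, (4 * (i : ℤ) + 3) * cc m i * 36 ^ i

/-- `b_i(m) = ∑_{n<m} (2n+1-i) C(n,i)^4` -/
def bb (m i : ℕ) : ℤ := ∑ n ∈ Finset.range m, (2 * (n : ℤ) + 1 - i) * ((n.choose i : ℕ) : ℤ) ^ 4

/-- `B_m(36)` -/
def BB (m : ℕ) : ℤ := ∑ i ∈ Finset.range m, bb m i * 36 ^ i

/-- Lucas sequence `U_0 = 0, U_1 = 1, U_{n+2} = P U_{n+1} - Q U_n`. -/
def lucU (P Q : ℤ) : ℕ → ℤ
  | 0 => 0
  | 1 => 1
  | (n + 2) => P * lucU P Q (n + 1) - Q * lucU P Q n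

/-! ### 2. The differential operator on polynomials -/

/-- `θ = x d/dx` -/
def thP (P : Polynomial ℤ) : Polynomial ℤ := X * derivative P

/-- `q₂ = (x-16)(x+4)` -/
def q2 : Polynomial ℤ := X ^ 2 - 12 * X - 64

def LA (P : Polynomial ℤ) : Polynomial ℤ :=
  (X * q2 + X ^ 2 * (X - 6)) * derivative P + X ^ 2 * q2 * derivative (derivative P)

/-- the third order operator `𝓛 = x²(θ+1)³ - 2x(2θ+1)(3θ²+3θ+1) - 4θ(16θ²-1)` -/
def LL (P : Polynomial ℤ) : Polynomial ℤ :=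
  X * (derivative (LA P) + (X - 2) ^ 2 * derivative P + (X - 2) * P)

/-! ### 3. Laurent series -/

/-- the Euler derivation `q d/dq` -/
def th {R : Type} [CommRing R] (f : LaurentSeries R) : LaurentSeries R where
  coeff n := (n : R) * f.coeff n
  isPWO_support' := f.isPWO_support.mono (fun n hn => by
    simp only [Function.mem_support, HahnSeries.mem_support] at hn ⊢
    intro h
    exact hn (by rw [h, mul_zero]))

theorem mulL_inj (d : ℕ) (hd : 0 < d) :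
    Function.Injective (AddMonoidHom.mulLeft (d : ℤ) : ℤ → ℤ) := by
  intro a b h
  have hd' : (d : ℤ) ≠ 0 := by exact_mod_cast hd.ne'
  exact mul_left_cancel₀ hd' (by simpa using h)

theorem mulL_le (d : ℕ) (hd : 0 < d) (a b : ℤ) :
    (AddMonoidHom.mulLeft (d : ℤ)) a ≤ (AddMonoidHom.mulLeft (d : ℤ)) b ↔ a ≤ b := by
  have hd' : (0 : ℤ) < (d : ℤ) := by exact_mod_cast hd
  simp only [AddMonoidHom.coe_mulLeft]
  exact mul_le_mul_iff_right₀ hd'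

/-- `f(q) ↦ f(q^d)` -/
def VV {R : Type} [CommRing R] (d : ℕ) (hd : 0 < d) : LaurentSeries R →+* LaurentSeries R :=
  HahnSeries.embDomainRingHom (AddMonoidHom.mulLeft (d : ℤ)) (mulL_inj d hd) (mulL_le d hd)

/-- coefficientwise cast `ℤ((q)) → ℂ((q))` -/
def zc (f : LaurentSeries ℤ) : LaurentSeries ℂ := f.map (Int.castRingHom ℂ)

/-- twist: the expansion of `F(τ + c)` -/
def tw (c : ℂ) (f : LaurentSeries ℂ) : LaurentSeries ℂ where
  coeff n := f.coeff n * Complex.exp (2 * Real.pi * Complex.I * c) ^ n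
  isPWO_support' := f.isPWO_support.mono (fun n hn => by
    simp only [Function.mem_support, HahnSeries.mem_support] at hn ⊢
    intro h
    exact hn (by rw [h, zero_mul]))

/-! ### 4. Functions on the upper half plane -/

/-- `q = exp(2πiτ)` -/
def qq (τ : ℂ) : ℂ := Complex.exp (2 * Real.pi * Complex.I * τ)

/-- `F` has the Laurent expansion `f` in `q = exp(2πiτ)` on the whole upper half plane -/
def HL (F : ℂ → ℂ) (f : LaurentSeries ℂ) : Prop :=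
  ∀ τ : ℂ, 0 < τ.im → HasSum (fun n : ℤ => f.coeff n * qq τ ^ n) (F τ)

/-- `(2πi)⁻¹ d/dτ` -/
def DD (F : ℂ → ℂ) (τ : ℂ) : ℂ := (2 * Real.pi * Complex.I)⁻¹ * deriv F τ

/-- holomorphic functions on the upper half plane of weight `2m`, sign `s`, for the group generated by
`τ ↦ τ+1`, `W10 : τ ↦ -1/(10τ)`, `W5 : τ ↦ (5τ-3)/(10τ-5)` -/
structure MF (s : ℂ) (m : ℤ) (F : ℂ → ℂ) : Prop where
  hol : ∀ τ : ℂ, 0 < τ.im → DifferentiableAt ℂ F τ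
  per : ∀ τ : ℂ, 0 < τ.im → F (τ + 1) = F τ
  w10 : ∀ τ : ℂ, 0 < τ.im → F (-1 / (10 * τ)) = s * (10 * τ ^ 2) ^ m * F τ
  w5 : ∀ τ : ℂ, 0 < τ.im →
    F ((5 * τ - 3) / (10 * τ - 5)) = s * (5 * (2 * τ - 1) ^ 2) ^ m * F τ

/-! ### 5. The modular functions of level 10 -/

/-- `η²` -/
def gg (z : ℂ) : ℂ := ModularForm.eta z ^ 2

/-- `v = (η1 η2 / (η5 η10))²` -/
def fv (τ : ℂ) : ℂ := gg τ * gg (2 * τ) / (gg (5 * τ) * gg (10 * τ))

/-- the Hauptmodul `x = v + 6 + 25/v` -/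
def fx (τ : ℂ) : ℂ := fv τ + 6 + 25 / fv τ

/-- `Δ10 = (η1 η2 η5 η10)^4` -/
def fD (τ : ℂ) : ℂ := (gg τ * gg (2 * τ) * gg (5 * τ) * gg (10 * τ)) ^ 2

/-- `f = -Dv/v`, weight 2 -/
def ff (τ : ℂ) : ℂ := - DD fv τ / fv τ

/-- `h = x/f`, weight -2 -/
def fh (τ : ℂ) : ℂ := fx τ / ff τ

/-- the CM point `i √(3/10)` -/
def t0 : ℂ := Complex.I * (Real.sqrt (3 / 10) : ℝ)

/-- the package of all facts on `x, h, Δ10` used in the arithmetic part -/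
structure PK (x h D : ℂ → ℂ) (xz hz dz : LaurentSeries ℤ) : Prop where
  mx : MF 1 0 x
  mh : MF (-1) (-1) h
  md : MF 1 4 D
  dne : ∀ τ : ℂ, 0 < τ.im → D τ ≠ 0
  lx : HL x (zc xz)
  lh : HL h (zc hz)
  ld : HL D (zc dz)
  xlow : ∀ n : ℤ, n < -1 → xz.coeff n = 0
  xm1 : xz.coeff (-1) = 1
  x0 : xz.coeff 0 = 4
  x1 : xz.coeff 1 = 22
  x2 : xz.coeff 2 = 56
  hlow : ∀ n : ℤ, n < -1 → hz.coeff n = 0
  hm1 : hz.coeff (-1) = 1
  h0 : hz.coeff 0 = 2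
  h1 : hz.coeff 1 = 8
  h2 : hz.coeff 2 = 12
  h3 : hz.coeff 3 = 31
  h4 : hz.coeff 4 = 52
  h5 : hz.coeff 5 = 108
  h6 : hz.coeff 6 = 176
  dlow : ∀ n : ℤ, n < 3 → dz.coeff n = 0
  d3 : dz.coeff 3 = 1
  d4 : dz.coeff 4 = -4
  d5 : dz.coeff 5 = -2
  d6 : dz.coeff 6 = 24
  f4 : ∀ τ : ℂ, 0 < τ.im → h τ ^ 4 * D τ = x τ
  e1 : ∀ τ : ℂ, 0 < τ.im → (h τ * DD x τ) ^ 2 = x τ ^ 2 * ((x τ - 16) * (x τ + 4))
  e2 : ∀ τ : ℂ, 0 < τ.im → 2 * h τ * DD (DD h) τ - DD h τ ^ 2 = (x τ - 2) ^ 2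
  cm : ∃ r : ℝ, 16 ≤ r ∧ x t0 = (r : ℂ)

/-- the Hecke family of `h` at `p`: `h(pτ)` and `p² h((τ+j)/p)` -/
def hk (p : ℕ) (h : ℂ → ℂ) : Option (ZMod p) → ℂ → ℂ
  | none, τ => h (p * τ)
  | some j, τ => (p : ℂ) ^ 2 * h ((τ + (j.val : ℂ)) / p)

/-- algebraic integers -/
def OO : Subring ℂ := (integralClosure ℤ ℂ).toSubring

/-- expansion of `τ ↦ hk p h i (p τ)` -/
def hkz (p : ℕ) (hp : 0 < p) (hz : LaurentSeries ℤ) : Option (ZMod p) → LaurentSeries ℂ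
  | none => VV (p ^ 2) (pow_pos hp 2) (zc hz)
  | some j => HahnSeries.C ((p : ℂ) ^ 2) * tw ((j.val : ℂ) / p) (zc hz)

/-- sign `χ(e)`: `1` for `e = 1, 2` and `-1` for `e = 5, 10` -/
def chi (e : ℤ) : ℤ := if e = 1 ∨ e = 2 then 1 else -1

/-- formal package (consequence of `PK`) -/
structure FK (x h : LaurentSeries ℤ) : Prop where
  xlow : ∀ n : ℤ, n < -1 → x.coeff n = 0
  xm1 : x.coeff (-1) = 1
  hlow : ∀ n : ℤ, n < -1 → h.coeff n = 0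
  hm1 : h.coeff (-1) = 1
  e1 : (h * th x) ^ 2 = x ^ 2 * ((x - 16) * (x + 4))
  e2 : 2 * h * th (th h) - th h ^ 2 = (x - 2) ^ 2

/-- divisibility by an integer in `ℤ((q))` -/
def DV (m : ℤ) (f : LaurentSeries ℤ) : Prop := (m : LaurentSeries ℤ) ∣ f

/-- `∑ f_{3k+r} q^k` -/
def sec3 (r : ℤ) (f : LaurentSeries ℤ) : LaurentSeries ℤ where
  coeff n := f.coeff (3 * n + r)
  isPWO_support' := by
    have h : (Function.support fun n : ℤ => f.coeff (3 * n + r)) ⊆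
        (fun n : ℤ => 3 * n + r) ⁻¹' f.support := by
      intro n hn
      simpa using hn
    refine Set.IsPWO.mono ?_ h
    have hb : BddBelow f.support := by
      by_cases h0 : f = 0
      · subst h0; simp
      · exact ⟨f.order, fun n hn => HahnSeries.order_le_of_coeff_ne_zero (by simpa using hn)⟩
    obtain ⟨b, hb⟩ := hb
    have : BddBelow ((fun n : ℤ => 3 * n + r) ⁻¹' f.support) := by
      refine ⟨-(|b| + |r|), fun n hn => ?_⟩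
      have h1 := hb hn
      simp only at h1
      have h2 := abs_nonneg b
      have h3 := abs_nonneg r
      have h4 := neg_abs_le b
      have h5 := le_abs_self r
      by_contra hc
      push Not at hc
      omega
    exact this.isWF.isPWO

/-- the Euler product `∏ (1 - q^{n+1})` as a function on the upper half plane -/
def ee (τ : ℂ) : ℂ := ∏' n : ℕ, (1 - qq τ ^ (n + 1))

/-- the Euler series in `q^d` -/
def Ez (d : ℕ) (hd : 0 < d) : LaurentSeries ℤ :=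
  VV d hd (HahnSeries.ofPowerSeries ℤ ℤ (PowerSeries.pentagonalSeries ℤ))

/-! ### 6. Two-variable power series for `A_1(m)` -/

/-- power series in `t` over power series in `u` -/
abbrev S2 : Type := PowerSeries (PowerSeries ℚ)

def tt : S2 := PowerSeries.X
def uu : S2 := PowerSeries.C PowerSeries.X
def hf2 : S2 := PowerSeries.C (PowerSeries.C (1 / 2 : ℚ))
def Rh : S2 :=
  12 + 15 * tt + 6 * uu * tt + 5 * tt ^ 2 + 15 * uu * tt ^ 2 + 12 * uu ^ 2 * tt ^ 2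
def Lh (n : ℕ) : S2 :=
  ∑ i ∈ Finset.range (n + 1), ((n.choose i : ℕ) : S2) ^ 2 * 36 ^ i * uu ^ i * tt ^ (n - i)
def Mh (n : ℕ) : S2 :=
  ∑ i ∈ Finset.range (n + 1), (i : S2) * ((n.choose i : ℕ) : S2) ^ 2 * 36 ^ i * uu ^ i * tt ^ (n - i)
def alH (r a b : S2) : S2 :=
  r * (12 * uu * tt - hf2 * (uu * tt ^ 2 + tt) + hf2 * (uu * tt ^ 2 * a + uu * tt * b))
def beH (r : S2) : S2 := tt * r * (-9 * uu + 3 * hf2 ^ 2 * (uu * tt + 1))
def PhH (r a b : S2) (m : ℕ) : S2 :=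
  (1 + tt) ^ m * (1 + uu) ^ m * ((m : S2) * alH r a b * Lh m + 2 * beH r * Mh m)

/-! rational functions of the certificate, in a field -/
section cert
variable {K : Type} [Field K]
def RK (t u : K) : K := 12 + 15 * t + 6 * u * t + 5 * t ^ 2 + 15 * u * t ^ 2 + 12 * u ^ 2 * t ^ 2
def RtK (t u : K) : K := 15 * t + 6 * u * t + 2 * (5 * t ^ 2 + 15 * u * t ^ 2 + 12 * u ^ 2 * t ^ 2)
def RuK (t u : K) : K := 6 * u * t + 15 * u * t ^ 2 + 24 * u ^ 2 * t ^ 2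
def g1K (t u : K) : K :=
  -(1 / 2) * (1 + u) * t ^ 3 + 11 / 2 * t ^ 2 + 54 * u * (1 + u) * t ^ 2 + 18 * t
    + 162 * u * (1 + u) * t + 12 + 108 * u * (1 + u)
def g1tK (t u : K) : K :=
  -(3 / 2) * (1 + u) * t ^ 3 + 11 * t ^ 2 + 108 * u * (1 + u) * t ^ 2 + 18 * t
    + 162 * u * (1 + u) * t
def k2K (t u : K) : K :=
  -(1 / 2) * (t ^ 2 + t) + u * (11 / 2 * t ^ 2 + 54 * (t + 1)) + u * (18 * u * t ^ 2 + 162 * u * (t + 1))
    + u * (12 * u ^ 2 * t ^ 2 + 108 * u ^ 2 * (t + 1))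
def k2uK (t u : K) : K :=
  u * (11 / 2 * t ^ 2 + 54 * (t + 1)) + 2 * u * (18 * u * t ^ 2 + 162 * u * (t + 1))
    + 3 * u * (12 * u ^ 2 * t ^ 2 + 108 * u ^ 2 * (t + 1))
def alK (t u : K) : K :=
  1 / RK t u * (12 * u * t - 1 / 2 * (u * t ^ 2 + t) + 1 / 2 * (u * t ^ 2 / (1 + t) + u * t / (1 + u)))
def beK (t u : K) : K := t / RK t u * (-9 * u + 3 / 4 * (u * t + 1))
end cert

/-- `(i+1)³ ρ_i(m) = C(m,i)^4 U(m,i)` -/
def UP (m i : ℤ) : ℤ :=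
  i ^ 3 * (35 + 135 * i + 175 * i ^ 2 + 75 * i ^ 3)
  + m * (-84 * i ^ 2 - 372 * i ^ 3 - 544 * i ^ 4 - 260 * i ^ 5)
  + m ^ 2 * (70 * i + 390 * i ^ 2 + 678 * i ^ 3 + 374 * i ^ 4)
  - m ^ 3 * (20 + 180 * i + 412 * i ^ 2 + 276 * i ^ 3)
  + m ^ 4 * (30 + 118 * i + 104 * i ^ 2) - m ^ 5 * (12 + 16 * i)

end

end Pool.Agent.H32.S36
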