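import Pool.Agent.H32.S36.Targets

set_option autoImplicit false

open Polynomial

namespace Pool.Agent.H32.S36

/-- `m ∣ A_1(m)` -/
theorem AA_dvd (h1 : T_A6) (h2 : T_A23) (m : ℕ) (hm : 1 ≤ m) : (m : ℤ) ∣ AA m := by
  obtain ⟨k, hk⟩ := h1 m hm
  -- prime powers of 2 and 3
  have hq : ∀ q : ℕ, q = 2 ∨ q = 3 → ∀ e : ℕ, q ^ e ∣ m → ((q ^ e : ℕ) : ℤ) ∣ AA m := by
    intro q hq e he
    unfold AA
    refine Finset.dvd_sum (fun i _ => ?_)
    have h3 := h2 q hq m i e he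
    have e1 : (4 * (i : ℤ) + 3) * cc m i * 36 ^ i = (4 * (i : ℤ) + 3) * (36 ^ i * cc m i) := by ring
    rw [e1]
    exact Dvd.dvd.mul_left h3 _
  have hm0 : m ≠ 0 := by omega
  obtain ⟨a, m1, hm1, hma⟩ := Nat.exists_eq_pow_mul_and_not_dvd hm0 2 (by norm_num)
  have hm10 : m1 ≠ 0 := by rintro rfl; simp at hm1
  obtain ⟨b, m2, hm2, hmb⟩ := Nat.exists_eq_pow_mul_and_not_dvd hm10 3 (by norm_num)
  have h2m2 : ¬ 2 ∣ m2 := fun h => hm1 (by rw [hmb]; exact Dvd.dvd.mul_left h _)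
  have c2 : Nat.Coprime (2 ^ a) (3 ^ b) := Nat.Coprime.pow _ _ (by norm_num)
  have c3 : Nat.Coprime (2 ^ a * 3 ^ b) m2 := by
    refine Nat.Coprime.mul_left ?_ ?_
    · exact Nat.Coprime.pow_left _ ((Nat.Prime.coprime_iff_not_dvd Nat.prime_two).2 h2m2)
    · exact Nat.Coprime.pow_left _ ((Nat.Prime.coprime_iff_not_dvd Nat.prime_three).2 hm2)
  have hmm : m = 2 ^ a * 3 ^ b * m2 := by rw [hma, hmb]; ring
  have d2 : ((2 ^ a : ℕ) : ℤ) ∣ AA m := hq 2 (Or.inl rfl) a (by rw [hmm, mul_assoc]; exact dvd_mul_right _ _)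
  have d3 : ((3 ^ b : ℕ) : ℤ) ∣ AA m := hq 3 (Or.inr rfl) b (by
    rw [hmm]; exact ⟨2 ^ a * m2, by ring⟩)
  have d6 : ((m2 : ℕ) : ℤ) ∣ AA m := by
    have h5 : ((m2 : ℕ) : ℤ) ∣ 6 ^ k * AA m := by
      refine dvd_trans ?_ hk
      exact_mod_cast (⟨2 ^ a * 3 ^ b, by rw [hmm]; ring⟩ : m2 ∣ m)
    have c6 : IsCoprime ((m2 : ℕ) : ℤ) ((6 : ℤ) ^ k) := by
      refine IsCoprime.pow_right ?_
      have : Nat.Coprime m2 6 := by
        have h6 : (6 : ℕ) = 2 * 3 := by norm_num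
        rw [h6]
        exact Nat.Coprime.mul_right ((Nat.Prime.coprime_iff_not_dvd Nat.prime_two).2 h2m2).symm
          ((Nat.Prime.coprime_iff_not_dvd Nat.prime_three).2 hm2).symm
      exact_mod_cast Nat.isCoprime_iff_coprime.2 this
    exact c6.dvd_of_dvd_mul_left h5
  have d23 : ((2 ^ a * 3 ^ b : ℕ) : ℤ) ∣ AA m := by
    push_cast
    push_cast at d2 d3
    exact IsCoprime.mul_dvd (by exact_mod_cast Nat.isCoprime_iff_coprime.2 c2) d2 d3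
  have dall : ((2 ^ a * 3 ^ b * m2 : ℕ) : ℤ) ∣ AA m := by
    rw [Nat.cast_mul]
    exact IsCoprime.mul_dvd (by exact_mod_cast Nat.isCoprime_iff_coprime.2 c3) d23 d6
  rw [hmm] at dall ⊢
  exact dall

theorem BB_dvd (h : T_BID) (m : ℕ) : (m : ℤ) ∣ BB m := by
  unfold BB
  refine Finset.dvd_sum (fun i _ => ?_)
  rw [h m i, mul_assoc, mul_assoc]
  exact dvd_mul_right _ _

theorem part_c (h0 : T_SUM) (h1 : T_A6) (h2 : T_A23) (h3 : T_BID) (S : ℕ → ℤ)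
    (hS : ∀ n : ℕ, S n = ∑ i ∈ Finset.range (n + 1), (36 : ℤ) ^ i * ((n.choose i : ℕ) : ℤ) ^ 4)
    (m : ℕ) (hm : 1 ≤ m) : (m : ℤ) ∣ ∑ j ∈ Finset.range m, (8 * (j : ℤ) + 7) * S j := by
  rw [(h0 S hS m).2]
  exact dvd_add (AA_dvd h1 h2 m hm) (Dvd.dvd.mul_left (BB_dvd h3 m) _)

/-- for a prime `p ≥ 7`: `(p/15) = (-15/p)` -/
theorem jac15 (p : ℕ) (hp : p.Prime) (h7 : 7 ≤ p) : jacobiSym (p : ℤ) 15 = jacobiSym (-15) p := by
  have hodd : Odd p := hp.odd_of_ne_two (by omega)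
  have e1 : jacobiSym (-15) p = jacobiSym (-1) p * jacobiSym ((15 : ℕ) : ℤ) p := by
    rw [← jacobiSym.mul_left]; norm_num
  rw [e1, jacobiSym.at_neg_one hodd]
  rcases Nat.odd_mod_four_iff.1 (Nat.odd_iff.1 hodd) with h | h
  · rw [ZMod.χ₄_nat_one_mod_four h, one_mul]
    exact jacobiSym.quadratic_reciprocity_one_mod_four h (by decide)
  · rw [ZMod.χ₄_nat_three_mod_four h]
    rw [jacobiSym.quadratic_reciprocity_three_mod_four h (by norm_num)]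
    ring


theorem jac10 (p : ℕ) (hp : p.Prime) (h7 : 7 ≤ p) :
    jacobiSym (-15) p * jacobiSym (-6) p = jacobiSym 10 p := by
  rw [← jacobiSym.mul_left]
  have e : (-15 : ℤ) * -6 = 3 ^ 2 * 10 := by norm_num
  rw [e, jacobiSym.mul_left, jacobiSym.pow_left]
  have h3 : jacobiSym 3 p ^ 2 = 1 := by
    apply jacobiSym.sq_one
    have h1 : Nat.Coprime 3 p := by
      rw [Nat.Prime.coprime_iff_not_dvd Nat.prime_three]
      intro h
      have := (Nat.prime_dvd_prime_iff_eq Nat.prime_three hp).1 h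
      omega
    exact_mod_cast h1
  rw [h3, one_mul]

theorem part_b7 (h0 : T_SUM) (h1 : T_A1P) (h2 : T_BPP) (S : ℕ → ℤ)
    (hS : ∀ n : ℕ, S n = ∑ i ∈ Finset.range (n + 1), (36 : ℤ) ^ i * ((n.choose i : ℕ) : ℤ) ^ 4)
    (p : ℕ) (hp : p.Prime) (h7 : 7 ≤ p) :
    Int.ModEq ((p : ℤ) ^ 2) (∑ j ∈ Finset.range p, (8 * (j : ℤ) + 7) * S j)
      (jacobiSym (p : ℤ) 15 * (3 + 4 * jacobiSym (-6) p) * (p : ℤ)) := by
  rw [(h0 S hS p).2]
  apply Int.ModEq.symm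
  rw [Int.modEq_iff_dvd]
  have e : AA p + 4 * BB p - jacobiSym (p : ℤ) 15 * (3 + 4 * jacobiSym (-6) p) * (p : ℤ) =
      (AA p - 3 * p * jacobiSym (-15) p) + 4 * (BB p - p * jacobiSym 10 p) := by
    rw [jac15 p hp h7, ← jac10 p hp h7]
    ring
  rw [e]
  exact dvd_add (h1 p hp h7) (Dvd.dvd.mul_left (h2 p hp h7) _)

theorem part_b (h0 : T_SUM) (h1 : T_A1P) (h2 : T_BPP) (S : ℕ → ℤ)
    (hS : ∀ n : ℕ, S n = ∑ i ∈ Finset.range (n + 1), (36 : ℤ) ^ i * ((n.choose i : ℕ) : ℤ) ^ 4)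
    (p : ℕ) (hp : p.Prime) (hp2 : p ≠ 2) :
    Int.ModEq ((p : ℤ) ^ 2) (∑ j ∈ Finset.range p, (8 * (j : ℤ) + 7) * S j)
      (jacobiSym (p : ℤ) 15 * (3 + 4 * jacobiSym (-6) p) * (p : ℤ)) := by
  by_cases h7 : 7 ≤ p
  · exact part_b7 h0 h1 h2 S hS p hp h7
  · have h35 : p = 3 ∨ p = 5 := by
      have h2' := hp.two_le
      interval_cases p
      · exact absurd rfl hp2
      · exact Or.inl rfl
      · exact absurd hp (by norm_num)
      · exact Or.inr rfl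
      · exact absurd hp (by norm_num)
    have s0 : S 0 = 1 := by rw [hS]; decide
    have s1 : S 1 = 37 := by rw [hS]; decide
    have s2 : S 2 = 1873 := by rw [hS]; rfl
    rcases h35 with rfl | rfl
    · have hj : jacobiSym ((3 : ℕ) : ℤ) 15 = 0 := by
        rw [jacobiSym.eq_zero_iff]; decide
      rw [hj]
      simp only [Finset.sum_range_succ, Finset.sum_range_zero, s0, s1, s2, zero_mul]
      norm_num [Int.ModEq]
    · have hj : jacobiSym ((5 : ℕ) : ℤ) 15 = 0 := by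
        rw [jacobiSym.eq_zero_iff]; decide
      have s3 : S 3 = 154549 := by rw [hS]; rfl
      have s4 : S 4 = 15312385 := by rw [hS]; rfl
      rw [hj]
      simp only [Finset.sum_range_succ, Finset.sum_range_zero, s0, s1, s2, s3, s4, zero_mul]
      norm_num [Int.ModEq]

end Pool.Agent.H32.S36
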