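import Pool.Agent.H32.S36.Api

set_option autoImplicit false

open Complex Polynomial

namespace Pool.Agent.H32.S36

noncomputable section

/-! ## E: elementary part -/

def T_SUM : Prop := ∀ S : ℕ → ℤ,
  (∀ n : ℕ, S n = ∑ i ∈ Finset.range (n + 1), (36 : ℤ) ^ i * ((n.choose i : ℕ) : ℤ) ^ 4) →
  ∀ m : ℕ, (∑ j ∈ Finset.range m, S j) = (TT m).eval 36 ∧
    (∑ j ∈ Finset.range m, (8 * (j : ℤ) + 7) * S j) = AA m + 4 * BB m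

def T_SAA : Prop := ∀ a b : ℕ,
  ∑ j ∈ Finset.range (a + 1), a.choose j * b.choose j * (a + b + j).choose j = (a + b).choose a ^ 2

def T_BID : Prop := ∀ m i : ℕ,
  bb m i = (m : ℤ) * ((m - 1).choose i : ℕ) *
    ∑ j ∈ Finset.range (i + 1),
      ((i.choose j * (i + j).choose j * (m + j).choose j * m.choose (i + 1 + j) : ℕ) : ℤ)

def T_LUC : Prop := ∀ p : ℕ, p.Prime → p ≠ 2 → ∀ P Q : ℤ,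
  (p : ℤ) ∣ lucU P Q p - (P ^ 2 - 4 * Q) ^ ((p - 1) / 2)

def T_BPP : Prop := ∀ p : ℕ, p.Prime → 7 ≤ p → (p : ℤ) ^ 2 ∣ BB p - p * jacobiSym 10 p

def T_LMR : Prop := ∀ n : ℕ,
  ((n : S2) + 1) * Lh (n + 1) =
      (((n : S2) + 1) * (tt + 36 * uu) + 72 * (n : S2) * uu) * Lh n + 2 * (tt - 36 * uu) * Mh n ∧
    Mh (n + 1) = (2 * (n : S2) + 1) * 36 * uu * Lh n + (tt - 36 * uu) * Mh n

def T_CER : Prop := ∀ (K : Type) [Field K] [CharZero K] (t u n L M L1 M1 : K),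
  RK t u ≠ 0 → 1 + t ≠ 0 → 1 + u ≠ 0 →
  (n + 1) * L1 = ((n + 1) * (t + 36 * u) + 72 * n * u) * L + 2 * (t - 36 * u) * M →
  M1 = (2 * n + 1) * 36 * u * L + (t - 36 * u) * M →
  t * u * (3 * L + 4 * M) =
    (1 + t) * (1 + u) * (alK t u * ((n + 1) * L1) + 2 * beK t u * M1)
    - t * u * (n * alK t u * L + 2 * beK t u * M)
    + (-(n * t ^ 2 * u / (1 + t)) * (g1K t u / RK t u) * L + t * u * (g1K t u / RK t u) * M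
        - t * u * (g1tK t u / RK t u - g1K t u * RtK t u / RK t u ^ 2) * L)
    + (t * (n * u / (1 + u) * (k2K t u / RK t u)
          + (k2uK t u / RK t u - k2K t u * RuK t u / RK t u ^ 2)
          - (n + 1) * (k2K t u / RK t u)) * L
        + t * (k2K t u / RK t u) * M)

def T_A1F : Prop := ∀ r a b : S2, Rh * r = 1 → (1 + tt) * a = 1 → (1 + uu) * b = 1 →
  ∀ m : ℕ, (AA m : ℚ) = PowerSeries.coeff m (PowerSeries.coeff m (PhH r a b m))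

def T_A6 : Prop := ∀ m : ℕ, 1 ≤ m → ∃ k : ℕ, (m : ℤ) ∣ 6 ^ k * AA m

def T_A23 : Prop := ∀ q : ℕ, q = 2 ∨ q = 3 → ∀ m i e : ℕ, q ^ e ∣ m →
  ((q ^ e : ℕ) : ℤ) ∣ 36 ^ i * cc m i

def T_A1P : Prop := ∀ p : ℕ, p.Prime → 7 ≤ p → (p : ℤ) ^ 2 ∣ AA p - 3 * p * jacobiSym (-15) p

/-! ## P: the operator on polynomials -/

def T_RHO : Prop := ∀ m i : ℕ,
  ((i : ℤ) + 1) ^ 3 * ((i : ℤ) ^ 3 * cc m (i - 1)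
    - 2 * (2 * (i : ℤ) + 1) * (3 * (i : ℤ) ^ 2 + 3 * i + 1) * cc m i
    - 4 * ((i : ℤ) + 1) * (4 * i + 3) * (4 * i + 5) * cc m (i + 1)) =
  ((m.choose i : ℕ) : ℤ) ^ 4 * UP m i

def T_LLC : Prop := ∀ P : Polynomial ℤ, (LL P).coeff 0 = 0 ∧ ∀ i : ℕ,
  (LL P).coeff (i + 1) = (i : ℤ) ^ 3 * P.coeff (i - 1)
    - 2 * (2 * (i : ℤ) + 1) * (3 * (i : ℤ) ^ 2 + 3 * i + 1) * P.coeff i
    - 4 * ((i : ℤ) + 1) * (4 * i + 3) * (4 * i + 5) * P.coeff (i + 1)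

def T_TTC : Prop := (∀ m i : ℕ, (TT m).coeff i = cc m i) ∧
  (∀ m : ℕ, AA m = 4 * (thP (TT m)).eval 36 + 3 * (TT m).eval 36) ∧
  (∀ m : ℕ, 1 ≤ m → (TT m).natDegree = m - 1 ∧ (TT m).leadingCoeff = 1)

def T_ODP : Prop := ∀ p : ℕ, p.Prime → p ≠ 2 →
  (∀ k : ℕ, (p : ℤ) ^ 2 ∣ (LL (TT p)).coeff k) ∧
    (∀ k : ℕ, (p : ℤ) ^ 4 ∣ (LL (TT (p ^ 2))).coeff k)

def T_LCS : Prop := ∀ p : ℕ, p.Prime → (p : ℤ) ∣ (TT (p ^ 2)).eval 36 - (TT p).eval 36 ^ 2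

/-! ## F: formal Laurent series -/

def T_FRB : Prop := ∀ (p : ℕ) (hp : p.Prime) (f : LaurentSeries ℤ),
  DV p (f ^ p - VV p hp.pos f)

def T_UNI : Prop := ∀ (f : LaurentSeries ℤ) (k : ℤ), (∀ n : ℤ, n < k → f.coeff n = 0) →
  f.coeff k = 1 → ∃ g : LaurentSeries ℤ, f * g = 1 ∧ (∀ n : ℤ, n < -k → g.coeff n = 0) ∧
    g.coeff (-k) = 1

def T_TRI : Prop := ∀ x h : LaurentSeries ℤ, (∀ n : ℤ, n < -1 → x.coeff n = 0) →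
  x.coeff (-1) = 1 → (∀ n : ℤ, n < -1 → h.coeff n = 0) → h.coeff (-1) = 1 →
  ∀ Q : Polynomial ℤ,
    (∀ m : ℤ, (∀ n : ℤ, n ≤ 0 → m ∣ (aeval x Q).coeff n) → ∀ i : ℕ, m ∣ Q.coeff i) ∧
    (∀ m : ℤ, (∀ n : ℤ, n < 0 → m ∣ (aeval x Q * h).coeff n) → ∀ i : ℕ, m ∣ Q.coeff i) ∧
    (Q.leadingCoeff = 1 → (∀ n : ℤ, n < -(Q.natDegree + 1) → (aeval x Q * h).coeff n = 0) ∧
      (aeval x Q * h).coeff (-(Q.natDegree + 1)) = 1)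

def T_LAG : Prop := ∀ x h : LaurentSeries ℤ, h ≠ 0 → th x ≠ 0 →
  (h * th x) ^ 2 = x ^ 2 * ((x - 16) * (x + 4)) →
  2 * h * th (th h) - th h ^ 2 = (x - 2) ^ 2 →
  ∀ P : Polynomial ℤ,
    h * th x * aeval x (derivative P) = h * th (aeval x P) ∧
    h * th (h * th (aeval x P)) = aeval x (LA P) ∧
    x * h * th (th (th (aeval x P * h))) = th x * aeval x (LL P)

def T_D3 : Prop := ∀ x h : LaurentSeries ℤ, FK x h → ∀ (P : Polynomial ℤ) (m : ℤ),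
  (∀ k : ℕ, m ∣ (LL P).coeff k) → DV m (th (th (th (aeval x P * h))))

def T_PFK : Prop := ∀ (x h D : ℂ → ℂ) (xz hz dz : LaurentSeries ℤ), PK x h D xz hz dz → FK xz hz

def T_HP : Prop := ∀ (x h D : ℂ → ℂ) (xz hz dz : LaurentSeries ℤ), PK x h D xz hz dz →
  ∀ (p : ℕ) [hp : Fact p.Prime], p ≠ 2 → p ≠ 5 →
  ∃ (P : Polynomial ℤ) (u : LaurentSeries ℤ), (∀ n : ℤ, n < 0 → u.coeff n = 0) ∧
    aeval xz P * hz = VV p hp.out.pos hz + ((p : ℤ) ^ 3 : ℤ) * u ∧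
    ∀ τ : ℂ, 0 < τ.im → ∑ i, hk p h i τ = aeval (x τ) P * h τ

def T_F1 : Prop := ∀ (x h D : ℂ → ℂ) (xz hz dz : LaurentSeries ℤ), PK x h D xz hz dz →
  ∀ (p : ℕ) [hp : Fact p.Prime], p ≠ 2 → p ≠ 5 →
  ∃ P : Polynomial ℤ, (∀ i : ℕ, (p : ℤ) ^ 2 ∣ (TT p - P).coeff i) ∧
    (∀ τ : ℂ, 0 < τ.im → ∑ i, hk p h i τ = aeval (x τ) P * h τ) ∧
    DV ((p : ℤ) ^ 2) (aeval xz (TT p) * hz - VV p hp.out.pos hz)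

def T_IN0 : Prop := ∀ x h : LaurentSeries ℤ, FK x h → ∀ p : ℕ, p.Prime → p ≠ 2 →
  DV ((p : ℤ) ^ 2) (th (aeval x (TT (p ^ 2)) * h))

def T_IN1 : Prop := ∀ x h : LaurentSeries ℤ, FK x h → ∀ (p : ℕ) (hp : p.Prime), p ≠ 2 →
  ∀ T T2 : Polynomial ℤ, DV ((p : ℤ) ^ 2) (aeval x T * h - VV p hp.pos h) →
    DV ((p : ℤ) ^ 2) (th (aeval x T2 * h)) →
    ∀ i : ℕ, (p : ℤ) ^ 2 ∣ (T ^ p * (T2 * thP T - T * thP T2)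
      + (p : Polynomial ℤ) * T2 * q2 ^ ((p - 1) / 2) * thP T ^ p).coeff i

def T_IN3 : Prop := ∀ x h : LaurentSeries ℤ, FK x h → ∀ (p : ℕ) (hp : p.Prime), p ≠ 2 →
  ∀ T : Polynomial ℤ, DV ((p : ℤ) ^ 2) (aeval x T * h - VV p hp.pos h) →
    ∀ i : ℕ, (p : ℤ) ^ 2 ∣ ((X - 2) ^ 2 * T ^ 2 + 2 * T * LA T - q2 * thP T ^ 2).coeff i

def T_IN4 : Prop := ∀ p : ℕ, p.Prime → 7 ≤ p → ∀ T : Polynomial ℤ, T.natDegree < p →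
  ¬ (∀ i : ℕ, (p : ℤ) ∣ T.coeff i) → (∀ k : ℕ, (p : ℤ) ∣ (LL T).coeff k) →
  (p : ℤ) ∣ T.eval 36 → (p : ℤ) ∣ (thP T).eval 36 → ¬ (p : ℤ) ∣ (LA T).eval 36

def T_INF : Prop := ∀ p : ℕ, p.Prime → 7 ≤ p → jacobiSym (-30) p = -1 →
  (p : ℤ) ^ 2 ∣ (TT p).eval 36

/-! ## H: analysis of `HL` -/

def T_HLU : Prop := ∀ (F : ℂ → ℂ) (f g : LaurentSeries ℂ), HL F f → HL F g → f = g

def T_HLM : Prop := ∀ (F G : ℂ → ℂ) (f g : LaurentSeries ℂ), HL F f → HL G g →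
  HL (fun τ => F τ * G τ) (f * g)

def T_HLD : Prop := ∀ (F : ℂ → ℂ) (f : LaurentSeries ℂ), HL F f →
  (∀ τ : ℂ, 0 < τ.im → DifferentiableAt ℂ F τ) ∧ HL (DD F) (th f)

def T_HLX : Prop := ∀ F : ℂ → ℂ, (∀ τ : ℂ, 0 < τ.im → DifferentiableAt ℂ F τ) →
  (∀ τ : ℂ, 0 < τ.im → F (τ + 1) = F τ) →
  (∃ (N : ℕ) (C Y : ℝ), ∀ τ : ℂ, 0 < τ.im → Y ≤ τ.im → ‖qq τ ^ N * F τ‖ ≤ C) →
  ∃ f : LaurentSeries ℂ, HL F f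

def T_HLV : Prop := ∀ (F : ℂ → ℂ) (f : LaurentSeries ℂ) (d : ℕ) (hd : 0 < d), HL F f →
  HL (fun τ => F (d * τ)) (VV d hd f)

def T_HLT : Prop := ∀ (F : ℂ → ℂ) (f : LaurentSeries ℂ) (c : ℝ), HL F f →
  HL (fun τ => F (τ + c)) (tw c f)

def T_HLS : Prop := ∀ (F : ℂ → ℂ) (g : LaurentSeries ℂ) (p : ℕ), 0 < p →
  (∀ τ : ℂ, 0 < τ.im → F (τ + 1) = F τ) → HL (fun τ => F (p * τ)) g →
  ∃ f : LaurentSeries ℂ, HL F f ∧ ∀ n : ℤ, f.coeff n = g.coeff (p * n)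

/-- leading term: `q^{-k} F → f_k` at `i∞` -/
def T_HLL : Prop := ∀ (F : ℂ → ℂ) (f : LaurentSeries ℂ) (k : ℤ), HL F f →
  (∀ n : ℤ, n < k → f.coeff n = 0) → ∀ ε : ℝ, 0 < ε → ∃ Y : ℝ, ∀ τ : ℂ, 0 < τ.im → Y ≤ τ.im →
    ‖qq τ ^ (-k) * F τ - f.coeff k‖ < ε

/-- quotients: if `H G = F` then `H` has the expansion `f g⁻¹` -/
def T_QUO : Prop := ∀ (F G H : ℂ → ℂ) (f g g' : LaurentSeries ℂ) (k : ℤ),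
  HL F f → HL G g → g * g' = 1 → g.coeff k ≠ 0 → (∀ n : ℤ, n < k → g.coeff n = 0) →
  (∀ τ : ℂ, 0 < τ.im → DifferentiableAt ℂ H τ) →
  (∀ τ : ℂ, 0 < τ.im → H τ * G τ = F τ) → HL H (f * g')

/-! ## M: modular functions -/

def T_GEN : Prop := ∀ (F : ℂ → ℂ) (s : ℂ) (m : ℤ), s ^ 2 = 1 → MF s m F →
  ∀ a b c d e : ℤ, (e = 1 ∨ e = 2 ∨ e = 5 ∨ e = 10) → a * d - b * c = e → e ∣ a → e ∣ d →
  10 ∣ c → ∀ τ : ℂ, 0 < τ.im →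
  F ((a * τ + b) / (c * τ + d)) =
    (if e = 1 ∨ e = 2 then 1 else s) * ((c * τ + d) ^ 2 / e) ^ m * F τ

def T_RED : Prop := ∀ G : ℂ → ℝ, (∀ τ : ℂ, 0 < τ.im → G (τ + 1) = G τ) →
  (∀ τ : ℂ, 0 < τ.im → G (-1 / (10 * τ)) = G τ) →
  (∀ τ : ℂ, 0 < τ.im → G ((5 * τ - 3) / (10 * τ - 5)) = G τ) →
  ∀ τ : ℂ, 0 < τ.im → ∃ τ' : ℂ, 1 / 12 ≤ τ'.im ∧ -(1 / 2) ≤ τ'.re ∧ τ'.re ≤ 1 / 2 ∧ G τ' = G τ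

def T_LIO : Prop := ∀ (F : ℂ → ℂ) (f : LaurentSeries ℂ), MF 1 0 F → HL F f →
  (∀ n : ℤ, n ≤ 0 → f.coeff n = 0) → ∀ τ : ℂ, 0 < τ.im → F τ = 0

def T_POL0 : Prop := ∀ (x : ℂ → ℂ) (xz : LaurentSeries ℤ), MF 1 0 x → HL x (zc xz) →
  (∀ n : ℤ, n < -1 → xz.coeff n = 0) → xz.coeff (-1) = 1 →
  ∀ (A : AddSubgroup ℂ) (F : ℂ → ℂ) (f : LaurentSeries ℂ), MF 1 0 F → HL F f →
  (∀ n : ℤ, n ≤ 0 → f.coeff n ∈ A) →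
  ∃ P : Polynomial ℂ, (∀ i : ℕ, P.coeff i ∈ A) ∧ ∀ τ : ℂ, 0 < τ.im → F τ = P.eval (x τ)

def T_POL2 : Prop := ∀ (x h D : ℂ → ℂ) (xz hz dz : LaurentSeries ℤ), PK x h D xz hz dz →
  ∀ (A : AddSubgroup ℂ) (F : ℂ → ℂ) (f : LaurentSeries ℂ), MF (-1) (-1) F → HL F f →
  (∀ n : ℤ, n < 0 → f.coeff n ∈ A) →
  ∃ P : Polynomial ℂ, (∀ i : ℕ, P.coeff i ∈ A) ∧ ∀ τ : ℂ, 0 < τ.im → F τ = P.eval (x τ) * h τ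

def T_HKP : Prop := ∀ h : ℂ → ℂ, MF (-1) (-1) h → ∀ (p : ℕ) [Fact p.Prime], p ≠ 2 → p ≠ 5 →
  (∀ i, ∀ τ : ℂ, 0 < τ.im → DifferentiableAt ℂ (hk p h i) τ) ∧
  ∃ s0 s10 s5 : Equiv.Perm (Option (ZMod p)), ∀ τ : ℂ, 0 < τ.im → ∀ i : Option (ZMod p),
    hk p h i (τ + 1) = hk p h (s0 i) τ ∧
    hk p h i (-1 / (10 * τ)) = -(10 * τ ^ 2)⁻¹ * hk p h (s10 i) τ ∧
    hk p h i ((5 * τ - 3) / (10 * τ - 5)) = -(5 * (2 * τ - 1) ^ 2)⁻¹ * hk p h (s5 i) τ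

def T_HKM : Prop := ∀ h : ℂ → ℂ, MF (-1) (-1) h → ∀ (p : ℕ) [Fact p.Prime], p ≠ 2 → p ≠ 5 →
  MF (-1) (-1) (fun τ => ∑ i, hk p h i τ) ∧
  ∀ l : ℂ, MF 1 (-((p : ℤ) + 1)) (fun τ => ∏ i, (l * h τ - hk p h i τ))

def T_HKL : Prop := ∀ (h : ℂ → ℂ) (hz : LaurentSeries ℤ), HL h (zc hz) →
  ∀ (p : ℕ) [hp : Fact p.Prime] (i : Option (ZMod p)),
    HL (fun τ => hk p h i (p * τ)) (hkz p hp.out.pos hz i)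

/-- values of the expansion of the sum -/
def T_HKS : Prop := ∀ (h : ℂ → ℂ) (hz : LaurentSeries ℤ), HL h (zc hz) →
  (∀ n : ℤ, n < -1 → hz.coeff n = 0) →
  ∀ (p : ℕ) [hp : Fact p.Prime], ∃ u : LaurentSeries ℤ, (∀ n : ℤ, u.coeff n = hz.coeff (p * n)) ∧
    HL (fun τ => ∑ i, hk p h i τ) (zc (VV p hp.out.pos hz + ((p : ℤ) ^ 3 : ℤ) * u))

def T_SPM : Prop := ∀ (x h D : ℂ → ℂ) (xz hz dz : LaurentSeries ℤ), PK x h D xz hz dz →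
  ∀ (p : ℕ) [Fact p.Prime], p ≠ 2 → p ≠ 5 → ∀ l ∈ OO,
  ∃ (Q : Polynomial ℂ) (k : ℕ), (∀ i : ℕ, ∃ o ∈ OO, Q.coeff i = (p : ℂ) ^ 2 * o) ∧
    ∀ τ : ℂ, 0 < τ.im →
      ((∏ i, (l * h τ - hk p h i τ)) - (l * h τ) ^ (p + 1) + (l * h τ) ^ p * ∑ i, hk p h i τ)
        * x τ ^ k = Q.eval (x τ) * h τ ^ (p + 1)

def T_P3N : Prop := ∀ (h : ℂ → ℂ) (hz : LaurentSeries ℤ), HL h (zc hz) →
  ∃ G0 G1 G2 : ℂ → ℂ, HL G0 (zc (sec3 0 hz)) ∧ HL G1 (zc (sec3 1 hz)) ∧ HL G2 (zc (sec3 2 hz)) ∧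
    ∀ τ : ℂ, 0 < τ.im → ∏ i : Option (ZMod 3), (3 * h τ - hk 3 h i τ) =
      (3 * h τ - h (3 * τ)) * ((3 * h τ - 9 * G0 τ) ^ 3
        - 729 * (qq τ * G1 τ ^ 3 + qq τ ^ 2 * G2 τ ^ 3)
        - 243 * qq τ * (3 * h τ - 9 * G0 τ) * G1 τ * G2 τ)

def T_P3C : Prop := ∀ xz hz dz : LaurentSeries ℤ,
  (∀ n : ℤ, n < -1 → xz.coeff n = 0) → xz.coeff (-1) = 1 → xz.coeff 0 = 4 → xz.coeff 1 = 22 →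
  xz.coeff 2 = 56 →
  (∀ n : ℤ, n < -1 → hz.coeff n = 0) → hz.coeff (-1) = 1 → hz.coeff 0 = 2 → hz.coeff 1 = 8 →
  hz.coeff 2 = 12 → hz.coeff 3 = 31 → hz.coeff 4 = 52 → hz.coeff 5 = 108 → hz.coeff 6 = 176 →
  (∀ n : ℤ, n < 3 → dz.coeff n = 0) → dz.coeff 3 = 1 → dz.coeff 4 = -4 → dz.coeff 5 = -2 →
  dz.coeff 6 = 24 → ∀ n : ℤ, n ≤ 0 →
  ((3 * hz - VV 3 (by norm_num) hz) * ((3 * hz - 9 * sec3 0 hz) ^ 3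
      - 729 * (HahnSeries.single 1 1 * sec3 1 hz ^ 3 + HahnSeries.single 2 1 * sec3 2 hz ^ 3)
      - 243 * HahnSeries.single 1 1 * (3 * hz - 9 * sec3 0 hz) * sec3 1 hz * sec3 2 hz) * dz
    + 27 * ((xz - 36) * (xz + 9) * (xz - 1))).coeff n = 0

def T_P3 : Prop := ∀ (x h D : ℂ → ℂ) (xz hz dz : LaurentSeries ℤ), PK x h D xz hz dz →
  ∀ τ : ℂ, 0 < τ.im → (∏ i : Option (ZMod 3), (3 * h τ - hk 3 h i τ)) * D τ =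
    -27 * ((x τ - 36) * (x τ + 9) * (x τ - 1))

def T_CM : Prop := ∀ (x h D : ℂ → ℂ) (xz hz dz : LaurentSeries ℤ), PK x h D xz hz dz →
  x t0 = 36 ∧ h t0 ≠ 0

def T_SPL : Prop := ∀ h : ℂ → ℂ, MF (-1) (-1) h → ∀ (p : ℕ) [Fact p.Prime], p ≠ 2 → p ≠ 3 →
  p ≠ 5 → ∀ e u w : ℤ, (e = 1 ∨ e = 2 ∨ e = 5 ∨ e = 10) → u ^ 2 + 30 * w ^ 2 = e * p → e ∣ u →
  ∃ i : Option (ZMod p), hk p h i t0 = chi e * ((u + 10 * w * t0) ^ 2 / e) * h t0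

def T_SPF : Prop := ∀ p : ℕ, p.Prime → p ≠ 2 → p ≠ 3 → p ≠ 5 → ∀ e u w : ℤ,
  (e = 1 ∨ e = 2 ∨ e = 5 ∨ e = 10) → u ^ 2 + 30 * w ^ 2 = e * p → e ∣ u →
  (p : ℤ) ^ 2 ∣ e * (TT p).eval 36 - chi e * (2 * (u ^ 2 - 30 * w ^ 2))

/-! ## N: the package -/

def T_ETA : Prop := ∀ z : ℂ, 0 < z.im →
  gg (z + 1) = Complex.exp (Real.pi * Complex.I / 6) * gg z ∧
  gg (-1 / z) = -Complex.I * z * gg z ∧ gg z ≠ 0 ∧ DifferentiableAt ℂ gg z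

def T_VTR : Prop := (∀ τ : ℂ, 0 < τ.im → fv τ ≠ 0 ∧ DifferentiableAt ℂ fv τ ∧
    fv (τ + 1) = fv τ ∧ fv (-1 / (10 * τ)) = 25 / fv τ ∧
    fv ((5 * τ - 3) / (10 * τ - 5)) = 25 / fv τ ∧ fD τ ≠ 0) ∧ MF 1 4 fD

def T_MFF : Prop := MF 1 0 fx ∧ MF (-1) 1 ff ∧
  ∀ τ : ℂ, 0 < τ.im → DD fx τ = -ff τ * (fv τ - 25 / fv τ)

def T_EUL : Prop := HL ee (zc (HahnSeries.ofPowerSeries ℤ ℤ (PowerSeries.pentagonalSeries ℤ)))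

def T_VEE : Prop := ∀ τ : ℂ, 0 < τ.im → ee τ ≠ 0 ∧
  fv τ * (ee (5 * τ) * ee (10 * τ)) ^ 2 = (qq τ)⁻¹ * (ee τ * ee (2 * τ)) ^ 2 ∧
  fD τ = qq τ ^ 3 * (ee τ * ee (2 * τ) * ee (5 * τ) * ee (10 * τ)) ^ 4

def T_FVL : Prop := ∃ vz vi dz : LaurentSeries ℤ, HL fv (zc vz) ∧
  HL (fun τ => 1 / fv τ) (zc vi) ∧ HL fD (zc dz) ∧ vz * vi = 1 ∧
  vz * (Ez 5 (by norm_num) * Ez 10 (by norm_num)) ^ 2 =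
    HahnSeries.single (-1) 1 * (Ez 1 (by norm_num) * Ez 2 (by norm_num)) ^ 2 ∧
  dz = HahnSeries.single 3 1 * (Ez 1 (by norm_num) * Ez 2 (by norm_num) * Ez 5 (by norm_num)
    * Ez 10 (by norm_num)) ^ 4

/-- numerical values of the first coefficients of `v, 1/v, Δ10` -/
def T_NU1 : Prop := ∀ vz vi dz : LaurentSeries ℤ, vz * vi = 1 →
  vz * (Ez 5 (by norm_num) * Ez 10 (by norm_num)) ^ 2 =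
    HahnSeries.single (-1) 1 * (Ez 1 (by norm_num) * Ez 2 (by norm_num)) ^ 2 →
  dz = HahnSeries.single 3 1 * (Ez 1 (by norm_num) * Ez 2 (by norm_num) * Ez 5 (by norm_num)
    * Ez 10 (by norm_num)) ^ 4 →
  ((∀ n : ℤ, n < -1 → vz.coeff n = 0) ∧ vz.coeff (-1) = 1 ∧ vz.coeff 0 = -2 ∧
    vz.coeff 1 = -3 ∧ vz.coeff 2 = 6 ∧ vz.coeff 3 = 2 ∧ vz.coeff 4 = 2 ∧ vz.coeff 5 = -5 ∧
    vz.coeff 6 = -16) ∧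
  ((∀ n : ℤ, n < 1 → vi.coeff n = 0) ∧ vi.coeff 1 = 1 ∧ vi.coeff 2 = 2 ∧ vi.coeff 3 = 7 ∧
    vi.coeff 4 = 14 ∧ vi.coeff 5 = 35 ∧ vi.coeff 6 = 64 ∧ vi.coeff 7 = 136 ∧
    vi.coeff 8 = 238) ∧
  ((∀ n : ℤ, n < 3 → dz.coeff n = 0) ∧ dz.coeff 3 = 1 ∧ dz.coeff 4 = -4 ∧ dz.coeff 5 = -2 ∧
    dz.coeff 6 = 24)

/-- numerical values of the first coefficients of `x, f, h` -/
def T_NU2 : Prop := ∀ vz vi : LaurentSeries ℤ,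
  ((∀ n : ℤ, n < -1 → vz.coeff n = 0) ∧ vz.coeff (-1) = 1 ∧ vz.coeff 0 = -2 ∧
    vz.coeff 1 = -3 ∧ vz.coeff 2 = 6 ∧ vz.coeff 3 = 2 ∧ vz.coeff 4 = 2 ∧ vz.coeff 5 = -5 ∧
    vz.coeff 6 = -16) →
  ((∀ n : ℤ, n < 1 → vi.coeff n = 0) ∧ vi.coeff 1 = 1 ∧ vi.coeff 2 = 2 ∧ vi.coeff 3 = 7 ∧
    vi.coeff 4 = 14 ∧ vi.coeff 5 = 35 ∧ vi.coeff 6 = 64 ∧ vi.coeff 7 = 136 ∧
    vi.coeff 8 = 238) →
  ((∀ n : ℤ, n < -1 → (vz + 6 + 25 * vi).coeff n = 0) ∧ (vz + 6 + 25 * vi).coeff (-1) = 1 ∧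
    (vz + 6 + 25 * vi).coeff 0 = 4 ∧ (vz + 6 + 25 * vi).coeff 1 = 22 ∧
    (vz + 6 + 25 * vi).coeff 2 = 56) ∧
  ((∀ n : ℤ, n < 0 → (-(th vz * vi)).coeff n = 0) ∧ (-(th vz * vi)).coeff 0 = 1 ∧
    (-(th vz * vi)).coeff 1 = 2 ∧ (-(th vz * vi)).coeff 2 = 10 ∧
    (-(th vz * vi)).coeff 3 = 8) ∧
  ∀ hz : LaurentSeries ℤ, hz * (-(th vz * vi)) = vz + 6 + 25 * vi →
    (∀ n : ℤ, n < -1 → hz.coeff n = 0) ∧ hz.coeff (-1) = 1 ∧ hz.coeff 0 = 2 ∧ hz.coeff 1 = 8 ∧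
    hz.coeff 2 = 12 ∧ hz.coeff 3 = 31 ∧ hz.coeff 4 = 52 ∧ hz.coeff 5 = 108 ∧ hz.coeff 6 = 176

def T_F4 : Prop := ∀ τ : ℂ, 0 < τ.im → ff τ ^ 4 = fx τ ^ 3 * fD τ

def T_HHH : Prop := MF (-1) (-1) fh ∧ ∀ τ : ℂ, 0 < τ.im → fh τ * ff τ = fx τ ∧
  fh τ ^ 4 * fD τ = fx τ

def T_E1 : Prop := ∀ τ : ℂ, 0 < τ.im →
  (fh τ * DD fx τ) ^ 2 = fx τ ^ 2 * ((fx τ - 16) * (fx τ + 4))

/-- transformation of the bracket `2hD²h - (Dh)²` -/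
def T_BRA : Prop := ∀ h : ℂ → ℂ, MF (-1) (-1) h →
  MF 1 0 (fun τ => 2 * h τ * DD (DD h) τ - DD h τ ^ 2)

def T_E2 : Prop := ∀ (x h : ℂ → ℂ) (xz hz : LaurentSeries ℤ), MF 1 0 x → MF (-1) (-1) h →
  HL x (zc xz) → HL h (zc hz) →
  (∀ n : ℤ, n < -1 → xz.coeff n = 0) → xz.coeff (-1) = 1 → xz.coeff 0 = 4 → xz.coeff 1 = 22 →
  (∀ n : ℤ, n < -1 → hz.coeff n = 0) → hz.coeff (-1) = 1 → hz.coeff 0 = 2 → hz.coeff 1 = 8 →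
  ∀ τ : ℂ, 0 < τ.im → 2 * h τ * DD (DD h) τ - DD h τ ^ 2 = (x τ - 2) ^ 2

def T_CMX : Prop := ∃ r : ℝ, 16 ≤ r ∧ fx t0 = (r : ℂ)

def T_PKG : Prop := ∃ xz hz dz : LaurentSeries ℤ, PK fx fh fD xz hz dz

end

end Pool.Agent.H32.S36
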